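import Pool.Agent.helper65.T5.EQBgen2

set_option autoImplicit false

/-!
# T5 (MP_16912e_nt), row EQB1
-/

namespace Pool.Agent.T5

open Finset NumberField Pool.Agent.helper3.FT Pool.Agent.helper47.RA

theorem EQB1_fin {α : Type} [Inhabited α] (A : Finset α) (n : ℕ) (h : A.card ≤ n) :
    ∃ f : ℕ → α, ∀ a ∈ A, ∃ i < n, f i = a := by
  classical
  refine ⟨fun i => A.toList.getD i default, ?_⟩
  intro a ha
  have h1 : a ∈ A.toList := Finset.mem_toList.mpr ha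
  obtain ⟨i, hi, hia⟩ := List.getElem_of_mem h1
  refine ⟨i, ?_, ?_⟩
  · rw [Finset.length_toList] at hi
    omega
  · simp only [List.getD_eq_getElem _ _ hi, hia]

/-- the classes modulo `e` -/
theorem EQB1_enum (S : ℕ × ℕ → Finset (ℤ × ℤ × ℤ)) (s e : ℕ) (he : 1 ≤ e)
    (hS : ∀ p, (S p).card ≤ s) : ∃ (s' : ℕ) (f : ℕ × ℕ → ℕ → ℤ × ℤ × ℤ), s' ≤ s ∧ s' ≤ e ^ 3 ∧
      ∀ p, ∀ c ∈ S p, ∃ i < s', (e : ℤ) ∣ c.1 - (f p i).1 ∧ (e : ℤ) ∣ c.2.1 - (f p i).2.1 ∧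
        (e : ℤ) ∣ c.2.2 - (f p i).2.2 := by
  classical
  set B : Finset (ℤ × ℤ × ℤ) := Ico (0 : ℤ) e ×ˢ Ico (0 : ℤ) e ×ˢ Ico (0 : ℤ) e with hB
  have hBc : B.card = e ^ 3 := by
    rw [hB, Finset.card_product, Finset.card_product, Int.card_Ico]
    simp
    ring
  set g : ℤ × ℤ × ℤ → ℤ × ℤ × ℤ := fun c => (c.1 % e, c.2.1 % e, c.2.2 % e) with hg
  have he0 : (0 : ℤ) < e := by exact_mod_cast he
  have hgB : ∀ c, g c ∈ B := by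
    intro c
    rw [hB, Finset.mem_product, Finset.mem_product, Finset.mem_Ico, Finset.mem_Ico,
      Finset.mem_Ico]
    exact ⟨⟨Int.emod_nonneg _ he0.ne', Int.emod_lt_of_pos _ he0⟩,
      ⟨Int.emod_nonneg _ he0.ne', Int.emod_lt_of_pos _ he0⟩,
      ⟨Int.emod_nonneg _ he0.ne', Int.emod_lt_of_pos _ he0⟩⟩
  have hcard : ∀ p, ((S p).image g).card ≤ min s (e ^ 3) := by
    intro p
    apply le_min
    · exact Finset.card_image_le.trans (hS p)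
    · rw [← hBc]
      apply Finset.card_le_card
      intro x hx
      obtain ⟨c, -, rfl⟩ := Finset.mem_image.mp hx
      exact hgB c
  choose f hf using fun p => EQB1_fin ((S p).image g) (min s (e ^ 3)) (hcard p)
  refine ⟨min s (e ^ 3), f, min_le_left _ _, min_le_right _ _, ?_⟩
  intro p c hc
  obtain ⟨i, hi, hfi⟩ := hf p (g c) (Finset.mem_image_of_mem g hc)
  refine ⟨i, hi, ?_⟩
  rw [hfi]
  exact ⟨Int.dvd_self_sub_emod, Int.dvd_self_sub_emod, Int.dvd_self_sub_emod⟩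

theorem EQB1_classes (F : Finset Tpl) (s : ℕ) (f : ℕ × ℕ → ℕ → ℤ × ℤ × ℤ)
    (Q : Tpl → ℤ × ℤ × ℤ → Prop) (h : ∀ t ∈ F, ∃ i < s, Q t (f t.1 i)) (B : ℝ)
    (hB : ∀ i, i < s → ∀ F' : Finset Tpl, F' ⊆ F → (∀ t ∈ F', Q t (f t.1 i)) →
      (F'.card : ℝ) ≤ B) : (F.card : ℝ) ≤ s * B := by
  classical
  have h1 : F ⊆ (range s).biUnion (fun i => F.filter (fun t => Q t (f t.1 i))) := by
    intro t ht
    obtain ⟨i, hi, hQ⟩ := h t ht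
    rw [Finset.mem_biUnion]
    exact ⟨i, Finset.mem_range.mpr hi, Finset.mem_filter.mpr ⟨ht, hQ⟩⟩
  have h2 : (F.card : ℝ) ≤ ∑ i ∈ range s, ((F.filter (fun t => Q t (f t.1 i))).card : ℝ) := by
    have h3 := (Finset.card_le_card h1).trans Finset.card_biUnion_le
    exact_mod_cast h3
  refine h2.trans ?_
  calc ∑ i ∈ range s, ((F.filter (fun t => Q t (f t.1 i))).card : ℝ)
      ≤ ∑ _i ∈ range s, B := by
        apply Finset.sum_le_sum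
        intro i hi
        exact hB i (Finset.mem_range.mp hi) _ (Finset.filter_subset _ _)
          (fun t ht => (Finset.mem_filter.mp ht).2)
    _ = s * B := by rw [Finset.sum_const, Finset.card_range, nsmul_eq_mul]

theorem EQB1_cen (κ κ' N Y Y₂ : ℝ) (t : Tpl) (h : κ' ≤ κ) (hY : 0 ≤ Y) (hY₂ : 0 ≤ Y₂)
    (hκ : 0 < κ) (hC : Cen κ N Y Y₂ t) : Cen κ' N Y Y₂ t := by
  have hz : (0 : ℝ) ≤ t.2.2.2 := le_trans (by positivity) hC.z1.le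
  have hl : (0 : ℝ) ≤ lam t := le_trans (by positivity) hC.l1
  refine ⟨hC.tt, hC.z1, hC.z2, hC.d1, hC.d2, ?_, hC.l2, ?_, ?_⟩
  · exact (mul_le_mul_of_nonneg_right h hY₂).trans hC.l1
  · refine le_trans ?_ hC.s1
    gcongr
  · refine le_trans ?_ hC.s2
    gcongr

theorem EQB1_rng (δ N Y N' : ℝ) (hδ : 0 < δ) (hδ1 : δ ≤ 1 / 10) (hN : 1 ≤ N)
    (hY1 : N ^ (0.39 : ℝ) ≤ Y) (hY2 : Y ≤ N ^ (1 / 2 - δ)) (h1 : N ≤ N')
    (h2 : N' ≤ N ^ (1 + δ / 5000)) : Rng δ N' Y (N ^ (1 / 2 + δ / 100)) := by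
  have hN0 : 0 < N := by linarith
  have hN'0 : 0 < N' := by linarith
  have hmono : ∀ {x z : ℝ}, x ≤ z → N ^ x ≤ N ^ z := fun h =>
    Real.rpow_le_rpow_of_exponent_le hN h
  refine ⟨?_, ?_, ?_, ?_⟩
  · calc N' ^ (0.385 : ℝ) ≤ (N ^ (1 + δ / 5000)) ^ (0.385 : ℝ) :=
          Real.rpow_le_rpow hN'0.le h2 (by norm_num)
      _ = N ^ ((1 + δ / 5000) * 0.385) := by rw [← Real.rpow_mul hN0.le]
      _ ≤ N ^ (0.39 : ℝ) := by
          apply hmono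
          norm_num
          linarith
      _ ≤ Y := hY1
  · exact hY2.trans (Real.rpow_le_rpow hN0.le h1 (by linarith))
  · calc N' ^ (1 / 2 : ℝ) ≤ (N ^ (1 + δ / 5000)) ^ (1 / 2 : ℝ) :=
          Real.rpow_le_rpow hN'0.le h2 (by norm_num)
      _ = N ^ ((1 + δ / 5000) * (1 / 2)) := by rw [← Real.rpow_mul hN0.le]
      _ ≤ N ^ (1 / 2 + δ / 100) := hmono (by linarith)
  · exact Real.rpow_le_rpow hN0.le h1 (by linarith)

/-- the error terms of the classes -/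
theorem EQB1_tot (δ N N' Y Y₂ C₁ C₂ : ℝ) (e y : ℕ) (hδ : 0 < δ) (hδ1 : δ ≤ 1 / 10) (hN : 1 < N)
    (hNN : N ≤ N') (hR : Rng δ N' Y Y₂) (he : (e : ℝ) ≤ N' ^ (δ / 4000))
    (hy : (y : ℝ) ≤ N' ^ (δ / 4000)) (hC : C₁ * C₂ * 2 ≤ N ^ δ) (hC₁ : 0 ≤ C₁) (hC₂ : 0 ≤ C₂) :
    C₁ * C₂ * ((e : ℝ) ^ 2 * (N' ^ (δ / 100) * relE δ N' Y Y₂ y)) ≤ N ^ (-(δ / 4)) := by
  have hN'1 : 1 < N' := by linarith
  have hN0 : 0 < N := by linarith
  have hN'0 : 0 < N' := by linarith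
  have h1 := EQB1_relE δ N' Y Y₂ y hδ hδ1 hN'1 hR hy
  have h2 : (e : ℝ) ^ 2 * (N' ^ (δ / 100) * relE δ N' Y Y₂ y) ≤ 2 * N' ^ (-(5 / 4 * δ)) := by
    have h3 : (e : ℝ) ^ 2 ≤ (N' ^ (δ / 4000)) ^ 2 := pow_le_pow_left₀ (Nat.cast_nonneg _) he 2
    calc (e : ℝ) ^ 2 * (N' ^ (δ / 100) * relE δ N' Y Y₂ y)
        ≤ (N' ^ (δ / 4000)) ^ 2 * (N' ^ (δ / 100) * (2 * N' ^ (-(147 / 100 * δ)))) := by
          apply mul_le_mul h3 _ _ (by positivity)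
          · exact mul_le_mul_of_nonneg_left h1 (Real.rpow_nonneg hN'0.le _)
          · apply mul_nonneg (Real.rpow_nonneg hN'0.le _)
            apply EQB1_relE0 δ N' Y Y₂ y hN'0
            · exact (Real.rpow_nonneg hN'0.le _).trans hR.y1
            · exact (Real.rpow_nonneg hN'0.le _).trans hR.w1
      _ = 2 * N' ^ (δ / 4000 * (2 : ℕ) + (δ / 100 + -(147 / 100 * δ))) := by
          rw [EQB1_pn N' _ 2 hN'0, Real.rpow_add hN'0, Real.rpow_add hN'0]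
          ring
      _ ≤ 2 * N' ^ (-(5 / 4 * δ)) := by
          apply mul_le_mul_of_nonneg_left _ (by norm_num)
          apply Real.rpow_le_rpow_of_exponent_le hN'1.le
          push_cast
          linarith
  have h4 : N' ^ (-(5 / 4 * δ)) ≤ N ^ (-(5 / 4 * δ)) :=
    Real.rpow_le_rpow_of_nonpos hN0 hNN (by linarith)
  calc C₁ * C₂ * ((e : ℝ) ^ 2 * (N' ^ (δ / 100) * relE δ N' Y Y₂ y))
      ≤ C₁ * C₂ * (2 * N ^ (-(5 / 4 * δ))) := by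
        apply mul_le_mul_of_nonneg_left _ (by positivity)
        linarith
    _ = C₁ * C₂ * 2 * N ^ (-(5 / 4 * δ)) := by ring
    _ ≤ N ^ δ * N ^ (-(5 / 4 * δ)) :=
        mul_le_mul_of_nonneg_right hC (Real.rpow_nonneg hN0.le _)
    _ = N ^ (-(δ / 4)) := by
        rw [← Real.rpow_add hN0]
        congr 1
        ring

theorem EQB1_pairs (N₁ K₁ y : ℕ) (W : Finset (ℕ × ℕ)) (hW : W ⊆ pairs N₁ K₁ y) :
    (W.card : ℝ) ≤ (N₁ : ℝ) * K₁ := by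
  have h1 : W ⊆ Icc 1 N₁ ×ˢ Icc 1 K₁ := fun p hp => (Finset.mem_filter.mp (hW hp)).1
  have h2 := Finset.card_le_card h1
  rw [Finset.card_product, Nat.card_Icc, Nat.card_Icc] at h2
  have h3 : W.card ≤ N₁ * K₁ := by simpa using h2
  exact_mod_cast h3

theorem EQB1_mem (N₁ K₁ y : ℕ) (p : ℕ × ℕ) (h : p ∈ pairs N₁ K₁ y) :
    1 ≤ p.1 ∧ 1 ≤ p.2 ∧ Nat.Coprime p.1 p.2 := by
  unfold pairs at h
  rw [Finset.mem_filter, Finset.mem_product, Finset.mem_Icc, Finset.mem_Icc] at h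
  exact ⟨h.1.1.1, h.1.2.1, h.2.2.2.1⟩

theorem EQB1 (δ : ℝ) (hδ : 0 < δ) (hδ1 : δ ≤ 1 / 10) (hBLU : BLU_stmt) (hNUMC : NUMC_stmt)
    (hRE1 : RE1_stmt) (hRE2 : RE2_stmt) (hTR : TR_stmt) (hCZ : CZ_stmt) (hCBR : CBR_stmt) :
    EQB1_stmt δ := by
  classical
  intro κ₀ hκ₀
  obtain ⟨κ, hκd⟩ : ∃ κ : ℝ, κ = min κ₀ 1 := ⟨_, rfl⟩
  have hκ : 0 < κ := by
    rw [hκd]
    exact lt_min hκ₀ one_pos
  have hκ1 : κ ≤ 1 := by
    rw [hκd]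
    exact min_le_right _ _
  have hκκ : κ ≤ κ₀ := by
    rw [hκd]
    exact min_le_left _ _
  obtain ⟨C₁, M₁, hC₁, hM₁, H₁⟩ := EQB1_gen δ κ hδ hδ1 hκ hκ1 hBLU hNUMC hCZ
  obtain ⟨C₂, hC₂, H₂⟩ := hCBR κ hκ hκ1
  obtain ⟨M₂, hM₂, H₃⟩ := EQB1_large (C₁ * C₂ * 2) δ hδ
  have hCC : 1 ≤ C₁ * C₂ := one_le_mul_of_one_le_of_one_le hC₁ hC₂
  refine ⟨C₁ * C₂, max M₁ (max M₂ 2), hCC, ?_⟩
  intro N Y N' hN hY1 hY2 hNN' hN' e he1 he2 s S hS F hF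
  have hN₁ : M₁ ≤ N := le_trans (le_max_left _ _) hN
  have hN₂ : M₂ ≤ N := le_trans (le_trans (le_max_left _ _) (le_max_right _ _)) hN
  have hN2 : 2 ≤ N := le_trans (le_trans (le_max_right _ _) (le_max_right _ _)) hN
  have hN1 : 1 < N := by linarith
  have hN0 : 0 < N := by linarith
  have hN'1 : 1 < N' := by linarith
  have hN'0 : 0 < N' := by linarith
  obtain ⟨Y₂, hY₂⟩ : ∃ Y₂ : ℝ, Y₂ = N ^ (1 / 2 + δ / 100) := ⟨_, rfl⟩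
  have hRng : Rng δ N' Y Y₂ := by
    rw [hY₂]
    exact EQB1_rng δ N Y N' hδ hδ1 hN1.le hY1 hY2 hNN' hN'
  rw [← hY₂] at hF ⊢
  obtain ⟨hSz, Hb⟩ := H₁ N' Y Y₂ (hN₁.trans hNN') hRng
  have hY0 : 0 ≤ Y := by linarith [hSz.Y1]
  have hY20 : 0 ≤ Y₂ := by linarith [hSz.Y21]
  obtain ⟨s', f, hs', hs'e, hf⟩ := EQB1_enum S s e he1 hS
  have he0 : (0 : ℝ) < e := by exact_mod_cast he1
  have he4 : (e : ℝ) ≤ N' ^ (δ / 4000) := by
    refine he2.trans ?_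
    calc N ^ (δ / 5000) ≤ N' ^ (δ / 5000) := Real.rpow_le_rpow hN0.le hNN' (by positivity)
      _ ≤ N' ^ (δ / 4000) := Real.rpow_le_rpow_of_exponent_le hN'1.le (by linarith)
  have he5 : (e : ℝ) ≤ N' ^ (1 / 5 : ℝ) :=
    he4.trans (Real.rpow_le_rpow_of_exponent_le hN'1.le (by linarith))
  have hcen : ∀ t ∈ F, Cen κ N' Y Y₂ t := fun t ht =>
    EQB1_cen κ₀ κ N' Y Y₂ t hκκ hY0 hY20 hκ₀ (hF t ht).1
  have hrel0 : 0 ≤ relE δ N' Y Y₂ (1 : ℕ) := EQB1_relE0 δ N' Y Y₂ _ hN'0 hY0 hY20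
  have hX0 : 0 ≤ N' ^ (δ / 100) * relE δ N' Y Y₂ (1 : ℕ) := by positivity
  obtain ⟨B, hBd⟩ : ∃ B : ℝ, B = C₁ * (Y * Y₂) * ((s : ℝ) / (e : ℝ) ^ 3 +
    (e : ℝ) ^ 2 * (N' ^ (δ / 100) * relE δ N' Y Y₂ (1 : ℕ))) := ⟨_, rfl⟩
  have hB0 : 0 ≤ B := by
    rw [hBd]
    positivity
  have hmain := H₂ N' Y Y₂ hN'1.le hSz.Y1 hSz.Y21 hSz.sN1 hSz.sK1 F hcen B hB0 (by
    intro N₁ K₁ hN₁ hK₁ hBlk F' hF' hblk
    obtain ⟨W, hW⟩ : ∃ W : Finset (ℕ × ℕ), W = (pairs N₁ K₁ 1).filter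
      (fun p => Nat.Coprime p.1 e) := ⟨_, rfl⟩
    have hWs : W ⊆ pairs N₁ K₁ 1 := by
      rw [hW]
      exact Finset.filter_subset _ _
    have hWco : ∀ p ∈ W, IsCoprime ((p.1 : ℤ) * 1) ((p.2 : ℤ) * e) := by
      intro p hp
      have h1 := (EQB1_mem N₁ K₁ 1 p (hWs hp)).2.2
      rw [hW] at hp
      have h2 := (Finset.mem_filter.mp hp).2
      rw [mul_one]
      exact (Nat.isCoprime_iff_coprime.mpr h1).mul_right (Nat.isCoprime_iff_coprime.mpr h2)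
    have hρ : ∀ p : ℕ × ℕ, ∃ ρ : ℤ × ℤ × ℤ, p ∈ W →
        ResG p.1 p.2 1 1 1 e ρ.1 ρ.2.1 ρ.2.2 := by
      intro p
      by_cases hp : p ∈ W
      · obtain ⟨α, β, γ, h⟩ := hRE1 p.1 p.2 1 1 1 e (hWco p hp) isCoprime_one_left
          isCoprime_one_left
        exact ⟨(α, β, γ), fun _ => h⟩
      · exact ⟨(0, 0, 0), fun h => absurd h hp⟩
    choose ρ hρ using hρ
    have hc : ∀ (i : ℕ) (p : ℕ × ℕ), ∃ c₀ : ℤ, p ∈ W → ∀ m g z : ℤ,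
        (((p.1 : ℤ) ^ 3 * 1) * ((p.2 : ℤ) * e) ∣
          z - ((ρ p).1 * m ^ 2 + (ρ p).2.1 * m * g + (ρ p).2.2 * g ^ 2 + c₀) ↔
        ((p.1 : ℤ) ^ 3 * 1 ∣ 1 * z * (p.2 : ℤ) ^ 4 + 1 * m * g * (p.2 : ℤ) ^ 2 -
          1 * g ^ 2 * (p.1 : ℤ) ^ 2 + (p.1 : ℤ) ^ 3 * 0 ∧
        (p.2 : ℤ) * e ∣ 1 * z * (p.1 : ℤ) ^ 2 - 1 * m ^ 2 - (p.2 : ℤ) * (f p i).2.2)) := by
      intro i p
      by_cases hp : p ∈ W
      · obtain ⟨c₀, h⟩ := hRE2 p.1 p.2 1 1 1 e _ _ _ (hWco p hp) isCoprime_one_left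
          isCoprime_one_left (hρ p hp) (f p i).2.2 0
        exact ⟨c₀, fun _ => h⟩
      · exact ⟨0, fun h => absurd h hp⟩
    choose c₀ hc₀ using hc
    have hRes : Resid W 1 1 e (fun _ => 1) (fun _ => e) ρ := by
      intro p hp
      refine ⟨one_mul e, ?_, ?_⟩
      · have h1 := hWco p hp
        rw [← Nat.isCoprime_iff_coprime]
        push_cast
        exact h1
      · have h1 := hρ p hp
        push_cast
        exact h1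
    have hcl := EQB1_classes F' s' f (fun t c => (e : ℤ) ∣ t.2.1 - c.1 ∧ (e : ℤ) ∣ t.2.2.1 - c.2.1 ∧
      (e : ℤ) ∣ RR t - c.2.2) (by
        intro t ht
        obtain ⟨-, -, c, hcS, h1, h2, h3⟩ := hF t (hF' ht)
        obtain ⟨i, hi, g1, g2, g3⟩ := hf t.1 c hcS
        refine ⟨i, hi, ?_, ?_, ?_⟩
        · have := dvd_add h1 g1
          rwa [sub_add_sub_cancel] at this
        · have := dvd_add h2 g2
          rwa [sub_add_sub_cancel] at this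
        · have := dvd_add h3 g3
          rwa [sub_add_sub_cancel] at this)
      (C₁ * (Y * Y₂) * ((W.card : ℝ) / ((N₁ : ℝ) * K₁ * (e * (e : ℝ) ^ 2)) +
        N' ^ (δ / 100) * relE δ N' Y Y₂ (1 : ℕ) / (e * (1 : ℕ)))) (by
        intro i _ F'' hF'' hQ
        apply Hb N₁ K₁ e 1 e hN₁ hK₁ hBlk he1 he4 le_rfl (by exact_mod_cast hN'1.le)
          squarefree_one he1 he5 W (fun _ => 1) (fun _ => e) ρ (fun p => (f p i).1)
          (fun p => (f p i).2.1) (c₀ i) hWs hRes F''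
        intro t ht
        obtain ⟨q1, q2, q3⟩ := hQ t ht
        have htF := hF' (hF'' ht)
        obtain ⟨hCt, hcop, -⟩ := hF t htF
        obtain ⟨b1, b2, b3, b4⟩ := hblk t (hF'' ht)
        have hT := hCt.tt
        have htW : t.1 ∈ W := by
          rw [hW, Finset.mem_filter]
          refine ⟨?_, hcop⟩
          unfold pairs
          rw [Finset.mem_filter, Finset.mem_product, Finset.mem_Icc, Finset.mem_Icc]
          exact ⟨⟨⟨hT.n1, b2⟩, hT.k1, b4⟩, b1, b3, hT.co, one_dvd _⟩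
        refine ⟨hcen t htF, htW, q1, q2, ?_⟩
        have h1 := (hc₀ i t.1 htW t.2.1 t.2.2.1 t.2.2.2).mpr ?_
        · push_cast
          have e1 : (t.1.1 : ℤ) ^ 3 * 1 * ((t.1.2 : ℤ) * e) =
            (t.1.1 : ℤ) ^ 3 * (t.1.2 : ℤ) * e := by ring
          rw [e1] at h1
          exact h1
        · obtain ⟨-, hR, -⟩ := hTR t hT
          refine ⟨?_, ?_⟩
          · rw [mul_one]
            have h2 := hT.c1
            have e2 : 1 * t.2.2.2 * (t.1.2 : ℤ) ^ 4 + 1 * t.2.1 * t.2.2.1 * (t.1.2 : ℤ) ^ 2 -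
                1 * t.2.2.1 ^ 2 * (t.1.1 : ℤ) ^ 2 + (t.1.1 : ℤ) ^ 3 * 0 =
                t.2.2.2 * (t.1.2 : ℤ) ^ 4 + t.2.1 * t.2.2.1 * (t.1.2 : ℤ) ^ 2 -
                  t.2.2.1 ^ 2 * (t.1.1 : ℤ) ^ 2 := by ring
            rw [e2]
            exact h2
          · have e3 : 1 * t.2.2.2 * (t.1.1 : ℤ) ^ 2 - 1 * t.2.1 ^ 2 -
                (t.1.2 : ℤ) * (f t.1 i).2.2 = (t.1.2 : ℤ) * (RR t - (f t.1 i).2.2) := by
              rw [mul_sub, hR]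
              ring
            rw [e3]
            exact mul_dvd_mul_left _ q3)
    refine hcl.trans ?_
    rw [hBd]
    have hWc := EQB1_pairs N₁ K₁ 1 W hWs
    have hN₁0 : (0 : ℝ) < N₁ := by exact_mod_cast hN₁
    have hK₁0 : (0 : ℝ) < K₁ := by exact_mod_cast hK₁
    have h1 : (W.card : ℝ) / ((N₁ : ℝ) * K₁ * (e * (e : ℝ) ^ 2)) ≤ 1 / (e : ℝ) ^ 3 := by
      rw [div_le_div_iff₀ (by positivity) (by positivity), one_mul]
      calc (W.card : ℝ) * (e : ℝ) ^ 3 ≤ ((N₁ : ℝ) * K₁) * (e : ℝ) ^ 3 :=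
            mul_le_mul_of_nonneg_right hWc (by positivity)
        _ = (N₁ : ℝ) * K₁ * (e * (e : ℝ) ^ 2) := by ring
    have hs'0 : (0 : ℝ) ≤ s' := Nat.cast_nonneg _
    have h2 : (s' : ℝ) ≤ s := by exact_mod_cast hs'
    have h3 : (s' : ℝ) ≤ (e : ℝ) ^ 3 := by exact_mod_cast hs'e
    have h4 : (s' : ℝ) * ((W.card : ℝ) / ((N₁ : ℝ) * K₁ * (e * (e : ℝ) ^ 2))) ≤
        (s : ℝ) / (e : ℝ) ^ 3 := by
      calc (s' : ℝ) * ((W.card : ℝ) / ((N₁ : ℝ) * K₁ * (e * (e : ℝ) ^ 2)))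
          ≤ s * (1 / (e : ℝ) ^ 3) := mul_le_mul h2 h1 (by positivity) (Nat.cast_nonneg _)
        _ = (s : ℝ) / (e : ℝ) ^ 3 := by ring
    have h5 : (s' : ℝ) * (N' ^ (δ / 100) * relE δ N' Y Y₂ (1 : ℕ) / (e * (1 : ℕ))) ≤
        (e : ℝ) ^ 2 * (N' ^ (δ / 100) * relE δ N' Y Y₂ (1 : ℕ)) := by
      calc (s' : ℝ) * (N' ^ (δ / 100) * relE δ N' Y Y₂ (1 : ℕ) / (e * (1 : ℕ)))
          ≤ (e : ℝ) ^ 3 * (N' ^ (δ / 100) * relE δ N' Y Y₂ (1 : ℕ) / (e * (1 : ℕ))) := by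
            apply mul_le_mul_of_nonneg_right h3
            positivity
        _ = (e : ℝ) ^ 2 * (N' ^ (δ / 100) * relE δ N' Y Y₂ (1 : ℕ)) := by
            rw [Nat.cast_one, mul_one]
            field_simp
    have h6 : 0 ≤ C₁ * (Y * Y₂) := by positivity
    calc (s' : ℝ) * (C₁ * (Y * Y₂) * ((W.card : ℝ) / ((N₁ : ℝ) * K₁ * (e * (e : ℝ) ^ 2)) +
          N' ^ (δ / 100) * relE δ N' Y Y₂ (1 : ℕ) / (e * (1 : ℕ))))
        = C₁ * (Y * Y₂) * ((s' : ℝ) * ((W.card : ℝ) / ((N₁ : ℝ) * K₁ * (e * (e : ℝ) ^ 2))) +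
          (s' : ℝ) * (N' ^ (δ / 100) * relE δ N' Y Y₂ (1 : ℕ) / (e * (1 : ℕ)))) := by ring
      _ ≤ C₁ * (Y * Y₂) * ((s : ℝ) / (e : ℝ) ^ 3 +
          (e : ℝ) ^ 2 * (N' ^ (δ / 100) * relE δ N' Y Y₂ (1 : ℕ))) :=
          mul_le_mul_of_nonneg_left (add_le_add h4 h5) h6)
  refine hmain.trans ?_
  have htot := EQB1_tot δ N N' Y Y₂ C₁ C₂ e 1 hδ hδ1 hN1 hNN' hRng he4
    (by
      rw [Nat.cast_one]
      exact Real.one_le_rpow hN'1.le (by positivity)) (H₃ N hN₂) (by linarith) (by linarith)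
  have hYY : 0 ≤ Y * Y₂ := mul_nonneg hY0 hY20
  rw [hBd]
  calc C₂ * (C₁ * (Y * Y₂) * ((s : ℝ) / (e : ℝ) ^ 3 +
        (e : ℝ) ^ 2 * (N' ^ (δ / 100) * relE δ N' Y Y₂ (1 : ℕ))))
      = (C₁ * C₂ * s / (e : ℝ) ^ 3 + C₁ * C₂ * ((e : ℝ) ^ 2 *
        (N' ^ (δ / 100) * relE δ N' Y Y₂ (1 : ℕ)))) * (Y * Y₂) := by ring
    _ ≤ (C₁ * C₂ * s / (e : ℝ) ^ 3 + N ^ (-(δ / 4))) * (Y * Y₂) :=
        mul_le_mul_of_nonneg_right (by linarith) hYY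

end Pool.Agent.T5
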