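import Pool.Agent.helper65.T5.EQB1

set_option autoImplicit false

/-!
# T5 (MP_16912e_nt), row EQB2
-/

namespace Pool.Agent.T5

open Finset NumberField Pool.Agent.helper3.FT Pool.Agent.helper47.RA

theorem EQB2_W (N₁ K₁ q : ℕ) (hq : 1 ≤ q) (W : Finset (ℕ × ℕ)) (hW : W ⊆ pairs N₁ K₁ q)
    (hWq : ∀ p ∈ W, q ∣ p.1) : (W.card : ℝ) ≤ (N₁ : ℝ) * K₁ / q := by
  classical
  have h1 : W ⊆ ((Ioc 0 N₁).filter (fun n => q ∣ n)) ×ˢ Icc 1 K₁ := by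
    intro p hp
    have h2 := hW hp
    unfold pairs at h2
    rw [Finset.mem_filter, Finset.mem_product, Finset.mem_Icc, Finset.mem_Icc] at h2
    rw [Finset.mem_product, Finset.mem_filter, Finset.mem_Ioc, Finset.mem_Icc]
    exact ⟨⟨⟨by omega, h2.1.1.2⟩, hWq p hp⟩, h2.1.2⟩
  have h2 := Finset.card_le_card h1
  rw [Finset.card_product, Nat.Ioc_filter_dvd_card_eq_div, Nat.card_Icc] at h2
  have h3 : W.card ≤ N₁ / q * K₁ := by simpa using h2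
  have h4 : (W.card : ℝ) ≤ ((N₁ / q : ℕ) : ℝ) * K₁ := by exact_mod_cast h3
  refine h4.trans ?_
  have h5 : ((N₁ / q : ℕ) : ℝ) ≤ (N₁ : ℝ) / q := Nat.cast_div_le
  calc ((N₁ / q : ℕ) : ℝ) * K₁ ≤ (N₁ : ℝ) / q * K₁ :=
        mul_le_mul_of_nonneg_right h5 (Nat.cast_nonneg _)
    _ = (N₁ : ℝ) * K₁ / q := by ring

theorem EQB2 (δ : ℝ) (hδ : 0 < δ) (hδ1 : δ ≤ 1 / 10) (hBLU : BLU_stmt) (hNUMC : NUMC_stmt)
    (hRE1 : RE1_stmt) (hRE2 : RE2_stmt) (hTR : TR_stmt) (hCZ : CZ_stmt) (hCBR : CBR_stmt) :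
    EQB2_stmt δ := by
  classical
  intro κ₀ hκ₀
  obtain ⟨κ, hκd⟩ : ∃ κ : ℝ, κ = min κ₀ 1 := ⟨_, rfl⟩
  have hκ : 0 < κ := by
    rw [hκd]
    exact lt_min hκ₀ one_pos
  have hκ1 : κ ≤ 1 := by
    rw [hκd]
    exact min_le_right _ _
  have hκκ : κ ≤ κ₀ := by
    rw [hκd]
    exact min_le_left _ _
  obtain ⟨C₁, M₁, hC₁, hM₁, H₁⟩ := EQB1_gen δ κ hδ hδ1 hκ hκ1 hBLU hNUMC hCZ
  obtain ⟨C₂, hC₂, H₂⟩ := hCBR κ hκ hκ1
  obtain ⟨M₂, hM₂, H₃⟩ := EQB1_large (C₁ * C₂ * 2) δ hδ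
  have hCC : 1 ≤ C₁ * C₂ := one_le_mul_of_one_le_of_one_le hC₁ hC₂
  refine ⟨C₁ * C₂, max M₁ (max M₂ 2), hCC, ?_⟩
  intro N Y hN hY1 hY2 e hep he2 s S hS F hF
  have hN₁ : M₁ ≤ N := le_trans (le_max_left _ _) hN
  have hN₂ : M₂ ≤ N := le_trans (le_trans (le_max_left _ _) (le_max_right _ _)) hN
  have hN2 : 2 ≤ N := le_trans (le_trans (le_max_right _ _) (le_max_right _ _)) hN
  have hN1 : 1 < N := by linarith
  have hN0 : 0 < N := by linarith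
  have he1 : 1 ≤ e := hep.one_lt.le
  have hNN' : N ≤ N := le_rfl
  have hN' : N ≤ N ^ (1 + δ / 5000) := by
    calc N = N ^ (1 : ℝ) := (Real.rpow_one N).symm
      _ ≤ _ := Real.rpow_le_rpow_of_exponent_le hN1.le (by linarith)
  obtain ⟨Y₂, hY₂⟩ : ∃ Y₂ : ℝ, Y₂ = N ^ (1 / 2 + δ / 100) := ⟨_, rfl⟩
  have hRng : Rng δ N Y Y₂ := by
    rw [hY₂]
    exact EQB1_rng δ N Y N hδ hδ1 hN1.le hY1 hY2 hNN' hN'
  rw [← hY₂] at hF ⊢
  obtain ⟨hSz, Hb⟩ := H₁ N Y Y₂ hN₁ hRng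
  have hY0 : 0 ≤ Y := by linarith [hSz.Y1]
  have hY20 : 0 ≤ Y₂ := by linarith [hSz.Y21]
  obtain ⟨s', f, hs', hs'e, hf⟩ := EQB1_enum S s e he1 hS
  have he0 : (0 : ℝ) < e := by exact_mod_cast he1
  have he4 : (e : ℝ) ≤ N ^ (δ / 4000) := by
    refine he2.trans ?_
    calc N ^ (δ / 5000) ≤ N ^ (δ / 5000) := Real.rpow_le_rpow hN0.le hNN' (by positivity)
      _ ≤ N ^ (δ / 4000) := Real.rpow_le_rpow_of_exponent_le hN1.le (by linarith)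
  have he5 : (e : ℝ) ≤ N ^ (1 / 5 : ℝ) :=
    he4.trans (Real.rpow_le_rpow_of_exponent_le hN1.le (by linarith))
  have heN : (e : ℝ) ≤ N := by
    calc (e : ℝ) ≤ N ^ (1 / 5 : ℝ) := he5
      _ ≤ N ^ (1 : ℝ) := Real.rpow_le_rpow_of_exponent_le hN1.le (by norm_num)
      _ = N := Real.rpow_one N
  have hcen : ∀ t ∈ F, Cen κ N Y Y₂ t := fun t ht =>
    EQB1_cen κ₀ κ N Y Y₂ t hκκ hY0 hY20 hκ₀ (hF t ht).1
  have hrel0 : 0 ≤ relE δ N Y Y₂ e := EQB1_relE0 δ N Y Y₂ _ hN0 hY0 hY20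
  have hX0 : 0 ≤ N ^ (δ / 100) * relE δ N Y Y₂ e := by positivity
  obtain ⟨B, hBd⟩ : ∃ B : ℝ, B = C₁ * (Y * Y₂) * ((s : ℝ) / (e : ℝ) ^ 4 +
    (e : ℝ) ^ 2 * (N ^ (δ / 100) * relE δ N Y Y₂ e)) := ⟨_, rfl⟩
  have hB0 : 0 ≤ B := by
    rw [hBd]
    positivity
  have hmain := H₂ N Y Y₂ hN1.le hSz.Y1 hSz.Y21 hSz.sN1 hSz.sK1 F hcen B hB0 (by
    intro N₁ K₁ hN₁ hK₁ hBlk F' hF' hblk
    obtain ⟨W, hW⟩ : ∃ W : Finset (ℕ × ℕ), W = (pairs N₁ K₁ e).filter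
      (fun p => e ∣ p.1) := ⟨_, rfl⟩
    have hWs : W ⊆ pairs N₁ K₁ e := by
      rw [hW]
      exact Finset.filter_subset _ _
    have hWe : ∀ p ∈ W, e ∣ p.1 := by
      intro p hp
      rw [hW] at hp
      exact (Finset.mem_filter.mp hp).2
    have hWco : ∀ p ∈ W, IsCoprime ((p.1 : ℤ) * e) ((p.2 : ℤ) * 1) := by
      intro p hp
      have h1 := (EQB1_mem N₁ K₁ e p (hWs hp)).2.2
      have h2 := Nat.Coprime.coprime_dvd_left (hWe p hp) h1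
      rw [mul_one]
      exact (Nat.isCoprime_iff_coprime.mpr h1).mul_left (Nat.isCoprime_iff_coprime.mpr h2)
    have hρ : ∀ p : ℕ × ℕ, ∃ ρ : ℤ × ℤ × ℤ, p ∈ W →
        ResG p.1 p.2 1 1 e 1 ρ.1 ρ.2.1 ρ.2.2 := by
      intro p
      by_cases hp : p ∈ W
      · obtain ⟨α, β, γ, h⟩ := hRE1 p.1 p.2 1 1 e 1 (hWco p hp) isCoprime_one_left
          isCoprime_one_left
        exact ⟨(α, β, γ), fun _ => h⟩
      · exact ⟨(0, 0, 0), fun h => absurd h hp⟩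
    choose ρ hρ using hρ
    have hc : ∀ (i : ℕ) (p : ℕ × ℕ), ∃ c₀ : ℤ, p ∈ W → ∀ m g z : ℤ,
        (((p.1 : ℤ) ^ 3 * e) * ((p.2 : ℤ) * 1) ∣
          z - ((ρ p).1 * m ^ 2 + (ρ p).2.1 * m * g + (ρ p).2.2 * g ^ 2 + c₀) ↔
        ((p.1 : ℤ) ^ 3 * e ∣ 1 * z * (p.2 : ℤ) ^ 4 + 1 * m * g * (p.2 : ℤ) ^ 2 -
          1 * g ^ 2 * (p.1 : ℤ) ^ 2 + (p.1 : ℤ) ^ 3 * (f p i).2.2 ∧
        (p.2 : ℤ) * 1 ∣ 1 * z * (p.1 : ℤ) ^ 2 - 1 * m ^ 2 - (p.2 : ℤ) * 0)) := by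
      intro i p
      by_cases hp : p ∈ W
      · obtain ⟨c₀, h⟩ := hRE2 p.1 p.2 1 1 e 1 _ _ _ (hWco p hp) isCoprime_one_left
          isCoprime_one_left (hρ p hp) 0 (f p i).2.2
        exact ⟨c₀, fun _ => h⟩
      · exact ⟨0, fun h => absurd h hp⟩
    choose c₀ hc₀ using hc
    have hRes : Resid W 1 1 e (fun _ => e) (fun _ => 1) ρ := by
      intro p hp
      refine ⟨mul_one e, ?_, ?_⟩
      · have h1 := hWco p hp
        rw [← Nat.isCoprime_iff_coprime]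
        push_cast
        exact h1
      · have h1 := hρ p hp
        push_cast
        exact h1
    have hcl := EQB1_classes F' s' f (fun t c => (e : ℤ) ∣ t.2.1 - c.1 ∧ (e : ℤ) ∣ t.2.2.1 - c.2.1 ∧
      (e : ℤ) ∣ RR' t - c.2.2) (by
        intro t ht
        obtain ⟨-, -, c, hcS, h1, h2, h3⟩ := hF t (hF' ht)
        obtain ⟨i, hi, g1, g2, g3⟩ := hf t.1 c hcS
        refine ⟨i, hi, ?_, ?_, ?_⟩
        · have := dvd_add h1 g1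
          rwa [sub_add_sub_cancel] at this
        · have := dvd_add h2 g2
          rwa [sub_add_sub_cancel] at this
        · have := dvd_add h3 g3
          rwa [sub_add_sub_cancel] at this)
      (C₁ * (Y * Y₂) * ((W.card : ℝ) / ((N₁ : ℝ) * K₁ * (e * (e : ℝ) ^ 2)) +
        N ^ (δ / 100) * relE δ N Y Y₂ e / (e * e))) (by
        intro i _ F'' hF'' hQ
        apply Hb N₁ K₁ e e e hN₁ hK₁ hBlk he1 he4 he1 heN
          hep.prime.squarefree he1 he5 W (fun _ => e) (fun _ => 1) ρ (fun p => (f p i).1)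
          (fun p => (f p i).2.1) (c₀ i) hWs hRes F''
        intro t ht
        obtain ⟨q1, q2, q3⟩ := hQ t ht
        have htF := hF' (hF'' ht)
        obtain ⟨hCt, hdv, -⟩ := hF t htF
        obtain ⟨b1, b2, b3, b4⟩ := hblk t (hF'' ht)
        have hT := hCt.tt
        have htW : t.1 ∈ W := by
          rw [hW, Finset.mem_filter]
          refine ⟨?_, hdv⟩
          unfold pairs
          rw [Finset.mem_filter, Finset.mem_product, Finset.mem_Icc, Finset.mem_Icc]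
          exact ⟨⟨⟨hT.n1, b2⟩, hT.k1, b4⟩, b1, b3, hT.co, hdv.mul_right _⟩
        refine ⟨hcen t htF, htW, q1, q2, ?_⟩
        have h1 := (hc₀ i t.1 htW t.2.1 t.2.2.1 t.2.2.2).mpr ?_
        · push_cast
          have e1 : (t.1.1 : ℤ) ^ 3 * e * ((t.1.2 : ℤ) * 1) =
            (t.1.1 : ℤ) ^ 3 * (t.1.2 : ℤ) * e := by ring
          rw [e1] at h1
          exact h1
        · obtain ⟨-, -, -, hR, -⟩ := hTR t hT
          refine ⟨?_, ?_⟩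
          · have e2 : 1 * t.2.2.2 * (t.1.2 : ℤ) ^ 4 + 1 * t.2.1 * t.2.2.1 * (t.1.2 : ℤ) ^ 2 -
                1 * t.2.2.1 ^ 2 * (t.1.1 : ℤ) ^ 2 + (t.1.1 : ℤ) ^ 3 * (f t.1 i).2.2 =
                -((t.1.1 : ℤ) ^ 3 * (RR' t - (f t.1 i).2.2)) := by
              linear_combination hR
            rw [e2, dvd_neg]
            exact mul_dvd_mul_left _ q3
          · have h2 := hT.c2
            have e3 : 1 * t.2.2.2 * (t.1.1 : ℤ) ^ 2 - 1 * t.2.1 ^ 2 - (t.1.2 : ℤ) * 0 =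
                -(t.2.1 ^ 2 - t.2.2.2 * (t.1.1 : ℤ) ^ 2) := by ring
            rw [e3, dvd_neg, mul_one]
            exact h2)
    refine hcl.trans ?_
    rw [hBd]
    have hWc := EQB2_W N₁ K₁ e he1 W hWs hWe
    have hN₁0 : (0 : ℝ) < N₁ := by exact_mod_cast hN₁
    have hK₁0 : (0 : ℝ) < K₁ := by exact_mod_cast hK₁
    have h1 : (W.card : ℝ) / ((N₁ : ℝ) * K₁ * (e * (e : ℝ) ^ 2)) ≤ 1 / (e : ℝ) ^ 4 := by
      rw [div_le_div_iff₀ (by positivity) (by positivity), one_mul]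
      calc (W.card : ℝ) * (e : ℝ) ^ 4 ≤ ((N₁ : ℝ) * K₁ / e) * (e : ℝ) ^ 4 :=
            mul_le_mul_of_nonneg_right hWc (by positivity)
        _ = (N₁ : ℝ) * K₁ * (e * (e : ℝ) ^ 2) := by field_simp
    have hs'0 : (0 : ℝ) ≤ s' := Nat.cast_nonneg _
    have h2 : (s' : ℝ) ≤ s := by exact_mod_cast hs'
    have h3 : (s' : ℝ) ≤ (e : ℝ) ^ 3 := by exact_mod_cast hs'e
    have h4 : (s' : ℝ) * ((W.card : ℝ) / ((N₁ : ℝ) * K₁ * (e * (e : ℝ) ^ 2))) ≤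
        (s : ℝ) / (e : ℝ) ^ 4 := by
      calc (s' : ℝ) * ((W.card : ℝ) / ((N₁ : ℝ) * K₁ * (e * (e : ℝ) ^ 2)))
          ≤ s * (1 / (e : ℝ) ^ 4) := mul_le_mul h2 h1 (by positivity) (Nat.cast_nonneg _)
        _ = (s : ℝ) / (e : ℝ) ^ 4 := by ring
    have he1' : (1 : ℝ) ≤ e := by exact_mod_cast he1
    have h5 : (s' : ℝ) * (N ^ (δ / 100) * relE δ N Y Y₂ e / (e * e)) ≤
        (e : ℝ) ^ 2 * (N ^ (δ / 100) * relE δ N Y Y₂ e) := by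
      calc (s' : ℝ) * (N ^ (δ / 100) * relE δ N Y Y₂ e / (e * e))
          ≤ (e : ℝ) ^ 3 * (N ^ (δ / 100) * relE δ N Y Y₂ e / (e * e)) := by
            apply mul_le_mul_of_nonneg_right h3
            positivity
        _ = (e : ℝ) * (N ^ (δ / 100) * relE δ N Y Y₂ e) := by
            field_simp
        _ ≤ (e : ℝ) ^ 2 * (N ^ (δ / 100) * relE δ N Y Y₂ e) := by
            apply mul_le_mul_of_nonneg_right _ hX0
            nlinarith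
    have h6 : 0 ≤ C₁ * (Y * Y₂) := by positivity
    calc (s' : ℝ) * (C₁ * (Y * Y₂) * ((W.card : ℝ) / ((N₁ : ℝ) * K₁ * (e * (e : ℝ) ^ 2)) +
          N ^ (δ / 100) * relE δ N Y Y₂ e / (e * e)))
        = C₁ * (Y * Y₂) * ((s' : ℝ) * ((W.card : ℝ) / ((N₁ : ℝ) * K₁ * (e * (e : ℝ) ^ 2))) +
          (s' : ℝ) * (N ^ (δ / 100) * relE δ N Y Y₂ e / (e * e))) := by ring
      _ ≤ C₁ * (Y * Y₂) * ((s : ℝ) / (e : ℝ) ^ 4 +
          (e : ℝ) ^ 2 * (N ^ (δ / 100) * relE δ N Y Y₂ e)) :=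
          mul_le_mul_of_nonneg_left (add_le_add h4 h5) h6)
  refine hmain.trans ?_
  have htot := EQB1_tot δ N N Y Y₂ C₁ C₂ e e hδ hδ1 hN1 hNN' hRng he4 he4 (H₃ N hN₂)
    (by linarith) (by linarith)
  have hYY : 0 ≤ Y * Y₂ := mul_nonneg hY0 hY20
  rw [hBd]
  calc C₂ * (C₁ * (Y * Y₂) * ((s : ℝ) / (e : ℝ) ^ 4 +
        (e : ℝ) ^ 2 * (N ^ (δ / 100) * relE δ N Y Y₂ e)))
      = (C₁ * C₂ * s / (e : ℝ) ^ 4 + C₁ * C₂ * ((e : ℝ) ^ 2 *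
        (N ^ (δ / 100) * relE δ N Y Y₂ e))) * (Y * Y₂) := by ring
    _ ≤ (C₁ * C₂ * s / (e : ℝ) ^ 4 + N ^ (-(δ / 4))) * (Y * Y₂) :=
        mul_le_mul_of_nonneg_right (by linarith) hYY

end Pool.Agent.T5
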