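import Pool.Agent.helper8.T5.SpecU

set_option autoImplicit false

/-!
# T5 (MP_16912e_nt), row UEA: the decomposition `a = I b`
-/

namespace Pool.Agent.T5

open Finset NumberField Pool.Agent.helper3.FT Pool.Agent.helper47.RA

theorem UEA : UEA_stmt := by
  intro K _ _ Q a ha hP
  set I : Ideal (𝓞 K) := a ⊔ Q.bar a with hI
  have hIdvd : I ∣ a := Ideal.dvd_iff_le.mpr le_sup_left
  obtain ⟨b, hb⟩ := hIdvd
  have hI0 : I ≠ ⊥ := by
    intro h
    apply ha
    have h1 : a ≤ I := le_sup_left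
    rw [h] at h1
    exact le_bot_iff.mp h1
  have hb0 : b ≠ ⊥ := by
    rintro rfl
    apply ha
    rw [hb, Ideal.mul_bot]
  have hbarI : Q.bar I = I := by
    have h1 : Q.bar I = Q.bar a ⊔ Q.bar (Q.bar a) := by
      rw [hI]
      exact Ideal.map_sup Q.cj a (Q.bar a)
    rw [h1, Q.bar_bar, hI, sup_comm]
  have hII : I * I = Ideal.span {(rr Q a : 𝓞 K)} := by
    have h1 := Q.mul_bar I
    rw [hbarI] at h1
    exact h1
  have hbara : Q.bar a = I * Q.bar b := by
    have h1 : Q.bar a = Q.bar (I * b) := congrArg Q.bar hb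
    rw [h1, Q.bar_mul, hbarI]
  have hco : b ⊔ Q.bar b = ⊤ := by
    apply mul_left_cancel₀ hI0
    rw [Ideal.mul_sup, ← hb, ← hbara, ← hI, Ideal.mul_top]
  have hnI : Ideal.absNorm I ≠ 0 := by rwa [Ne, Ideal.absNorm_eq_zero_iff]
  have hnb : Ideal.absNorm b ≠ 0 := by rwa [Ne, Ideal.absNorm_eq_zero_iff]
  have hrr : rr Q a = Ideal.absNorm I := rfl
  have hna : Ideal.absNorm a = rr Q a * Ideal.absNorm b := by
    rw [hrr]
    conv_lhs => rw [hb]
    rw [map_mul]
  have hzz : Ideal.absNorm b = zz Q a := by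
    unfold zz
    rw [hna, Nat.mul_div_cancel_left _ (Nat.pos_of_ne_zero (by rw [hrr]; exact hnI))]
  refine ⟨I, b, rfl, hb, hbarI, hII, hco, hzz, ?_, ?_, ?_, ?_⟩
  · rw [← hzz]
    exact hna
  · rw [hrr]
    exact Nat.one_le_iff_ne_zero.mpr hnI
  · rw [← hzz]
    exact Nat.one_le_iff_ne_zero.mpr hnb
  · rw [Nat.squarefree_iff_prime_squarefree]
    intro q hq hdvd
    apply hP q hq
    have h1 : (Ideal.span {(q : 𝓞 K)}) ^ 2 ∣ I ^ 2 := by
      rw [pow_two I, hII]
      obtain ⟨c, hc⟩ := hdvd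
      refine ⟨Ideal.span {(c : 𝓞 K)}, ?_⟩
      rw [hc, pow_two, Ideal.span_singleton_mul_span_singleton,
        Ideal.span_singleton_mul_span_singleton]
      push_cast
      rfl
    have h2 : Ideal.span {(q : 𝓞 K)} ∣ I :=
      (UniqueFactorizationMonoid.pow_dvd_pow_iff_dvd two_ne_zero).1 h1
    exact h2.trans ⟨b, hb⟩

end Pool.Agent.T5
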