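import Pool.Agent.helper95.T5.SpecE

set_option autoImplicit false

/-!
# T5 (MP_16912e_nt), rows EQB1 and EQB2: the bound for one block and one class
-/

namespace Pool.Agent.T5

open Finset NumberField Pool.Agent.helper3.FT Pool.Agent.helper47.RA

theorem EQB1_large (A x : ℝ) (hx : 0 < x) : ∃ N₀ : ℝ, 1 ≤ N₀ ∧ ∀ N : ℝ, N₀ ≤ N → A ≤ N ^ x := by
  have h := (tendsto_rpow_atTop hx).eventually_ge_atTop A
  obtain ⟨N₀, hN₀⟩ := Filter.eventually_atTop.mp h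
  exact ⟨max 1 N₀, le_max_left _ _, fun N hN => hN₀ N (le_trans (le_max_right _ _) hN)⟩

/-- the exponents of the parameters -/
theorem EQB1_exp (δ N Y Y₂ : ℝ) (hN : 1 < N) (hR : Rng δ N Y Y₂) :
    ∃ u v : ℝ, Y = N ^ u ∧ Y₂ = N ^ v ∧ 0.385 ≤ u ∧ u ≤ 1 / 2 - δ ∧ 1 / 2 ≤ v ∧
      v ≤ 1 / 2 + δ / 100 := by
  have hN0 : 0 < N := by linarith
  have hY : 0 < Y := lt_of_lt_of_le (Real.rpow_pos_of_pos hN0 _) hR.y1
  have hY₂ : 0 < Y₂ := lt_of_lt_of_le (Real.rpow_pos_of_pos hN0 _) hR.w1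
  have e1 : N ^ (Real.logb N Y) = Y := Real.rpow_logb hN0 hN.ne' hY
  have e2 : N ^ (Real.logb N Y₂) = Y₂ := Real.rpow_logb hN0 hN.ne' hY₂
  refine ⟨Real.logb N Y, Real.logb N Y₂, e1.symm, e2.symm, ?_, ?_, ?_, ?_⟩
  · rw [← Real.rpow_le_rpow_left_iff hN, e1]
    exact hR.y1
  · rw [← Real.rpow_le_rpow_left_iff hN, e1]
    exact hR.y2
  · rw [← Real.rpow_le_rpow_left_iff hN, e2]
    exact hR.w1
  · rw [← Real.rpow_le_rpow_left_iff hN, e2]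
    exact hR.w2

theorem EQB1_sqrt (N u : ℝ) (hN : 0 < N) : √(N ^ u) = N ^ (u / 2) := by
  rw [Real.sqrt_eq_rpow, ← Real.rpow_mul hN.le]
  ring_nf

theorem EQB1_sizes (N u v : ℝ) (hN : 0 < N) :
    sN N (N ^ u) (N ^ v) = N ^ (u + v / 2 - 1 / 2) ∧
    sK N (N ^ u) (N ^ v) = N ^ (u / 2 + v - 1 / 2) ∧
    sM N (N ^ u) (N ^ v) = N ^ (3 * u / 2 + v / 2 - 1 / 2) ∧
    sG N (N ^ u) (N ^ v) = N ^ (u / 2 + 3 * v / 2 - 1 / 2) := by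
  have hs : √N = N ^ (1 / 2 : ℝ) := Real.sqrt_eq_rpow N
  unfold sN sK sM sG
  rw [EQB1_sqrt N u hN, EQB1_sqrt N v hN, hs]
  refine ⟨?_, ?_, ?_, ?_⟩
  · rw [← Real.rpow_add hN, ← Real.rpow_sub hN]
  · rw [← Real.rpow_add hN, ← Real.rpow_sub hN]
  · rw [← Real.rpow_add hN, ← Real.rpow_add hN, ← Real.rpow_sub hN]
    congr 1
    ring
  · rw [← Real.rpow_add hN, ← Real.rpow_add hN, ← Real.rpow_sub hN]
    congr 1
    ring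

/-- the relative error is small -/
theorem EQB1_relE (δ N Y Y₂ y : ℝ) (hδ : 0 < δ) (hδ1 : δ ≤ 1 / 10) (hN : 1 < N)
    (hR : Rng δ N Y Y₂) (hy : y ≤ N ^ (δ / 4000)) :
    relE δ N Y Y₂ y ≤ 2 * N ^ (-(147 / 100 * δ)) := by
  obtain ⟨u, v, rfl, rfl, hu1, hu2, hv1, hv2⟩ := EQB1_exp δ N Y Y₂ hN hR
  have hN0 : 0 < N := by linarith
  have e1 : (N ^ u) ^ (5 / 2 : ℝ) = N ^ (5 / 2 * u) := by
    rw [← Real.rpow_mul hN0.le]
    ring_nf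
  have e2 : N / N ^ (5 / 2 * u) = N ^ (1 - 5 / 2 * u) := by
    rw [Real.rpow_sub hN0, Real.rpow_one]
  have e3 : N ^ u * N ^ v / N = N ^ (u + v - 1) := by
    rw [Real.rpow_sub hN0, Real.rpow_one, Real.rpow_add hN0]
  have e4 : (N ^ (u + v - 1)) ^ (3 / 2 : ℝ) = N ^ (3 / 2 * (u + v - 1)) := by
    rw [← Real.rpow_mul hN0.le]
    ring_nf
  unfold relE
  rw [e1, e2, e3, e4]
  have h1 : √(max 1 (N ^ (1 - 5 / 2 * u))) * N ^ (3 / 2 * (u + v - 1)) ≤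
      N ^ (-(148 / 100 * δ)) := by
    rcases le_total (N ^ (1 - 5 / 2 * u)) 1 with h | h
    · rw [max_eq_left h, Real.sqrt_one, one_mul]
      apply Real.rpow_le_rpow_of_exponent_le hN.le
      linarith
    · rw [max_eq_right h, EQB1_sqrt N _ hN0, ← Real.rpow_add hN0]
      apply Real.rpow_le_rpow_of_exponent_le hN.le
      linarith
  have h2 : 1 + √(y * N ^ (u + v - 1)) ≤ 2 := by
    have h3 : y * N ^ (u + v - 1) ≤ 1 := by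
      calc y * N ^ (u + v - 1) ≤ N ^ (δ / 4000) * N ^ (u + v - 1) :=
            mul_le_mul_of_nonneg_right hy (Real.rpow_nonneg hN0.le _)
        _ = N ^ (δ / 4000 + (u + v - 1)) := (Real.rpow_add hN0 _ _).symm
        _ ≤ N ^ (0 : ℝ) := by
            apply Real.rpow_le_rpow_of_exponent_le hN.le
            linarith
        _ = 1 := Real.rpow_zero N
    have h4 : √(y * N ^ (u + v - 1)) ≤ 1 := Real.sqrt_le_one.mpr h3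
    linarith
  have h5 : N ^ (δ / 100) * √(max 1 (N ^ (1 - 5 / 2 * u))) * N ^ (3 / 2 * (u + v - 1)) ≤
      N ^ (-(147 / 100 * δ)) := by
    rw [mul_assoc]
    calc N ^ (δ / 100) * (√(max 1 (N ^ (1 - 5 / 2 * u))) * N ^ (3 / 2 * (u + v - 1)))
        ≤ N ^ (δ / 100) * N ^ (-(148 / 100 * δ)) :=
          mul_le_mul_of_nonneg_left h1 (Real.rpow_nonneg hN0.le _)
      _ = N ^ (δ / 100 + -(148 / 100 * δ)) := (Real.rpow_add hN0 _ _).symm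
      _ = N ^ (-(147 / 100 * δ)) := by
          congr 1
          ring
  calc N ^ (δ / 100) * √(max 1 (N ^ (1 - 5 / 2 * u))) * N ^ (3 / 2 * (u + v - 1)) *
        (1 + √(y * N ^ (u + v - 1)))
      ≤ N ^ (-(147 / 100 * δ)) * 2 := by
        apply mul_le_mul h5 h2 (by positivity) (Real.rpow_nonneg hN0.le _)
    _ = 2 * N ^ (-(147 / 100 * δ)) := by ring

/-- the tuples of one class as points of fibres -/
theorem EQB1_count (W : Finset (ℕ × ℕ)) (P e V Mr Gr : ℕ) (ρ : ℕ × ℕ → ℤ × ℤ × ℤ)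
    (r₁ r₂ c₀ : ℕ × ℕ → ℤ) (F : Finset Tpl)
    (h : ∀ t ∈ F, t.1 ∈ W ∧ |t.2.1| ≤ (Mr : ℤ) ∧ |t.2.2.1| ≤ (Gr : ℤ) ∧ 1 ≤ t.2.2.2 ∧
      t.2.2.2 ≤ (V : ℤ) ∧ (P : ℤ) ∣ t.2.1 - r₁ t.1 ∧ (P : ℤ) ∣ t.2.2.1 - r₂ t.1 ∧
      ((t.1.1 ^ 3 * t.1.2 * e : ℕ) : ℤ) ∣ t.2.2.2 - ((ρ t.1).1 * t.2.1 ^ 2 +
        (ρ t.1).2.1 * t.2.1 * t.2.2.1 + (ρ t.1).2.2 * t.2.2.1 ^ 2 + c₀ t.1)) :
    (F.card : ℝ) ≤ ∑ p ∈ W, ((fibG (-(Mr : ℤ)) (-(Gr : ℤ)) 1 (2 * Mr + 1) (2 * Gr + 1) V P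
      (p.1 ^ 3 * p.2 * e) (r₁ p) (r₂ p) (ρ p).1 (ρ p).2.1 (ρ p).2.2 (c₀ p)).card : ℝ) := by
  classical
  have h1 : F.card = ∑ p ∈ W, (F.filter (fun t => t.1 = p)).card :=
    Finset.card_eq_sum_card_fiberwise (fun t ht => (h t ht).1)
  rw [h1]
  push_cast
  apply Finset.sum_le_sum
  intro p _
  have h2 : (F.filter (fun t => t.1 = p)).card ≤ (fibG (-(Mr : ℤ)) (-(Gr : ℤ)) 1 (2 * Mr + 1)
      (2 * Gr + 1) V P (p.1 ^ 3 * p.2 * e) (r₁ p) (r₂ p) (ρ p).1 (ρ p).2.1 (ρ p).2.2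
        (c₀ p)).card := by
    apply Finset.card_le_card_of_injOn (fun t => t.2)
    · intro t ht
      have ht' : t ∈ F.filter (fun t => t.1 = p) := ht
      rw [Finset.mem_filter] at ht'
      obtain ⟨htF, htp⟩ := ht'
      obtain ⟨-, hm, hg, hz1, hz2, hd1, hd2, hd3⟩ := h t htF
      rw [htp] at hd1 hd2 hd3
      show t.2 ∈ fibG _ _ _ _ _ _ _ _ _ _ _ _ _ _
      unfold fibG
      rw [Finset.mem_filter, Finset.mem_product, Finset.mem_product, Finset.mem_filter,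
        Finset.mem_filter, Finset.mem_Ico, Finset.mem_Ico, Finset.mem_Ico]
      have hm' := abs_le.mp hm
      have hg' := abs_le.mp hg
      refine ⟨⟨⟨⟨hm'.1, ?_⟩, hd1⟩, ⟨⟨hg'.1, ?_⟩, hd2⟩, hz1, ?_⟩, hd3⟩
      · push_cast
        linarith [hm'.2]
      · push_cast
        linarith [hg'.2]
      · linarith
    · intro t ht t' ht' htt
      have h3 := (Finset.mem_filter.mp ht).2
      have h4 := (Finset.mem_filter.mp ht').2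
      exact Prod.ext (h3.trans h4.symm) htt
  exact_mod_cast h2

theorem EQB1_ceil (c s : ℝ) (hc : 0 ≤ c) (hs : 1 ≤ s) :
    2 * c * s + 1 ≤ (2 * ⌈c * s⌉₊ + 1 : ℕ) ∧ ((2 * ⌈c * s⌉₊ + 1 : ℕ) : ℝ) ≤ (2 * c + 3) * s := by
  have h0 : 0 ≤ c * s := mul_nonneg hc (by linarith)
  have h1 := Nat.le_ceil (c * s)
  have h2 := (Nat.ceil_lt_add_one h0).le
  push_cast
  constructor
  · linarith
  · nlinarith

theorem EQB1_pn (N x : ℝ) (n : ℕ) (hN : 0 < N) : (N ^ x) ^ n = N ^ (x * n) := by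
  rw [Real.rpow_mul hN.le, Real.rpow_natCast]

/-- `sN³ sK` -/
theorem EQB1_s31 (N Y Y₂ u v : ℝ) (hN : 0 < N) (hYu : Y = N ^ u) (hYv : Y₂ = N ^ v) :
    sN N Y Y₂ ^ 3 * sK N Y Y₂ = N ^ (7 / 2 * u + 5 / 2 * v - 2) := by
  obtain ⟨eN, eK, -, -⟩ := EQB1_sizes N u v hN
  rw [hYu, hYv, eN, eK, EQB1_pn N _ 3 hN, ← Real.rpow_add hN]
  congr 1
  push_cast
  ring

theorem EQB1_sMG (N Y Y₂ u v : ℝ) (hN : 0 < N) (hYu : Y = N ^ u) (hYv : Y₂ = N ^ v) :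
    sM N Y Y₂ * sG N Y Y₂ = Y₂ * sN N Y Y₂ ^ 2 := by
  obtain ⟨eN, -, eM, eG⟩ := EQB1_sizes N u v hN
  rw [hYu, hYv, eN, eM, eG, EQB1_pn N _ 2 hN, ← Real.rpow_add hN, ← Real.rpow_add hN]
  congr 1
  push_cast
  ring

theorem EQB1_MG (κ N Y Y₂ u v M G N₁ : ℝ) (hκ : 0 < κ) (hN : 0 < N) (hYu : Y = N ^ u)
    (hYv : Y₂ = N ^ v) (hM0 : 0 < M) (hG0 : 0 < G) (hMhi : M ≤ 15 / κ * sM N Y Y₂)
    (hGhi : G ≤ 19 * sG N Y Y₂) (hn : κ ^ 2 * sN N Y Y₂ ≤ N₁) (hs : 0 ≤ sN N Y Y₂)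
    (hsM : 0 ≤ sM N Y Y₂) (hY₂ : 0 ≤ Y₂) :
    M * G ≤ 285 / κ ^ 5 * Y₂ * N₁ ^ 2 := by
  have h1 : M * G ≤ (15 / κ * sM N Y Y₂) * (19 * sG N Y Y₂) :=
    mul_le_mul hMhi hGhi hG0.le (by positivity)
  have h2 := EQB1_sMG N Y Y₂ u v hN hYu hYv
  have h3 : (κ ^ 2 * sN N Y Y₂) ^ 2 ≤ N₁ ^ 2 := pow_le_pow_left₀ (by positivity) hn 2
  have h4 : sN N Y Y₂ ^ 2 ≤ N₁ ^ 2 / κ ^ 4 := by
    rw [le_div_iff₀ (by positivity)]
    calc sN N Y Y₂ ^ 2 * κ ^ 4 = (κ ^ 2 * sN N Y Y₂) ^ 2 := by ring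
      _ ≤ _ := h3
  calc M * G ≤ (15 / κ * sM N Y Y₂) * (19 * sG N Y Y₂) := h1
    _ = 285 / κ * (sM N Y Y₂ * sG N Y Y₂) := by ring
    _ = 285 / κ * Y₂ * sN N Y Y₂ ^ 2 := by rw [h2]; ring
    _ ≤ 285 / κ * Y₂ * (N₁ ^ 2 / κ ^ 4) := mul_le_mul_of_nonneg_left h4 (by positivity)
    _ = 285 / κ ^ 5 * Y₂ * N₁ ^ 2 := by field_simp

theorem EQB1_main (D Y Y₂ M G P H e w N₁ K₁ : ℝ) (hY : 0 < Y) (hP : 0 < P) (he : 0 < e)
    (hN₁ : 0 < N₁) (hK₁ : 0 < K₁) (hH : 0 < H) (hw : 0 ≤ w) (hHinv : 1 / H ≤ 128 * Y / (N₁ ^ 3 * K₁ * e))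
    (hPM : P ≤ M) (hPG : P ≤ G) (hMG : M * G ≤ D * Y₂ * N₁ ^ 2) :
    2 / H * ((M / P + 1) * (G / P + 1)) * w ≤
      1024 * D * (Y * Y₂) * (w / (N₁ * K₁ * (e * P ^ 2))) := by
  have hM0 : 0 < M := lt_of_lt_of_le hP hPM
  have hG0 : 0 < G := lt_of_lt_of_le hP hPG
  have hmP : M / P + 1 ≤ 2 * (M / P) := by
    have : 1 ≤ M / P := (one_le_div hP).mpr hPM
    linarith
  have hgP : G / P + 1 ≤ 2 * (G / P) := by
    have : 1 ≤ G / P := (one_le_div hP).mpr hPG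
    linarith
  have h1 : (M / P + 1) * (G / P + 1) ≤ 4 * (D * Y₂ * N₁ ^ 2) / P ^ 2 := by
    calc (M / P + 1) * (G / P + 1) ≤ (2 * (M / P)) * (2 * (G / P)) :=
          mul_le_mul hmP hgP (by positivity) (by positivity)
      _ = 4 * (M * G) / P ^ 2 := by
          field_simp
          norm_num
      _ ≤ _ := by gcongr
  have h2 : 2 / H ≤ 256 * Y / (N₁ ^ 3 * K₁ * e) := by
    have h3 : 2 / H = 2 * (1 / H) := by ring
    have h4 : 256 * Y / (N₁ ^ 3 * K₁ * e) = 2 * (128 * Y / (N₁ ^ 3 * K₁ * e)) := by ring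
    rw [h3, h4]
    linarith
  calc 2 / H * ((M / P + 1) * (G / P + 1)) * w
      ≤ 256 * Y / (N₁ ^ 3 * K₁ * e) * (4 * (D * Y₂ * N₁ ^ 2) / P ^ 2) * w := by
        apply mul_le_mul_of_nonneg_right _ hw
        exact mul_le_mul h2 h1 (by positivity) (by positivity)
    _ = 1024 * D * (Y * Y₂) * (w / (N₁ * K₁ * (e * P ^ 2))) := by
        field_simp
        ring

theorem EQB1_T (N δ : ℝ) (hN : 1 < N) (hδ : 0 < δ) (hδ1 : δ ≤ 1 / 10) :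
    ((⌈N ^ 2⌉₊ : ℕ) : ℝ) ^ (δ / 400) ≤ 2 * N ^ (δ / 100) := by
  have hN0 : 0 < N := by linarith
  have h3 : N ^ (2 : ℝ) = N ^ 2 := by
    rw [← Real.rpow_natCast]
    norm_num
  have h1 : ((⌈N ^ 2⌉₊ : ℕ) : ℝ) ≤ 2 * N ^ (2 : ℝ) := by
    have h2 := (Nat.ceil_lt_add_one (show 0 ≤ N ^ 2 by positivity)).le
    rw [h3]
    nlinarith
  calc ((⌈N ^ 2⌉₊ : ℕ) : ℝ) ^ (δ / 400) ≤ (2 * N ^ (2 : ℝ)) ^ (δ / 400) :=
        Real.rpow_le_rpow (Nat.cast_nonneg _) h1 (by positivity)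
    _ = 2 ^ (δ / 400) * N ^ (2 * (δ / 400)) := by
        rw [Real.mul_rpow (by norm_num) (Real.rpow_nonneg hN0.le _), ← Real.rpow_mul hN0.le]
    _ ≤ 2 * N ^ (δ / 100) := by
        apply mul_le_mul _ (Real.rpow_le_rpow_of_exponent_le hN.le (by linarith))
          (Real.rpow_nonneg hN0.le _) (by norm_num)
        calc (2 : ℝ) ^ (δ / 400) ≤ 2 ^ (1 : ℝ) :=
              Real.rpow_le_rpow_of_exponent_le (by norm_num) (by linarith)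
          _ = 2 := Real.rpow_one 2

theorem EQB1_err (CB Te X R nb M G H A e y Y Y₂ : ℝ) (hCB : 0 ≤ CB) (hTe : Te ≤ 2 * X)
    (hH : 0 < H) (hA : 0 < A) (he : 0 < e) (hy : 0 < y) (hY : 0 < Y) (hY₂ : 0 < Y₂)
    (hR : 0 ≤ R) (hTe0 : 0 ≤ Te) (hHinv : 1 / H ≤ 128 * Y / (A * e))
    (hnB : √(M * G) * nb ≤ R * (A / Y) * (Y * Y₂) / y) :
    CB * Te * (√(M * G) / H) * nb ≤ 256 * CB * (Y * Y₂) * (X * R / (e * y)) := by
  have h1 : √(M * G) / H * nb ≤ 128 * Y / (A * e) * (R * (A / Y) * (Y * Y₂) / y) := by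
    have h2 : √(M * G) / H * nb = 1 / H * (√(M * G) * nb) := by ring
    rw [h2]
    refine le_trans (mul_le_mul_of_nonneg_left hnB (by positivity)) ?_
    apply mul_le_mul_of_nonneg_right hHinv
    positivity
  calc CB * Te * (√(M * G) / H) * nb = CB * Te * (√(M * G) / H * nb) := by ring
    _ ≤ CB * Te * (128 * Y / (A * e) * (R * (A / Y) * (Y * Y₂) / y)) :=
        mul_le_mul_of_nonneg_left h1 (by positivity)
    _ ≤ CB * (2 * X) * (128 * Y / (A * e) * (R * (A / Y) * (Y * Y₂) / y)) := by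
        apply mul_le_mul_of_nonneg_right _ (by positivity)
        exact mul_le_mul_of_nonneg_left hTe hCB
    _ = 256 * CB * (Y * Y₂) * (X * R / (e * y)) := by
        field_simp
        ring

theorem EQB1_relE0 (δ N Y Y₂ y : ℝ) (hN : 0 < N) (hY : 0 ≤ Y) (hY₂ : 0 ≤ Y₂) :
    0 ≤ relE δ N Y Y₂ y := by
  unfold relE
  positivity

/-- the numerical facts -/
structure EQB1_Sz (δ κ N Y Y₂ : ℝ) : Prop where
  N1 : 1 < N
  kN : 19 / κ ≤ N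
  cN : 1296 ≤ N
  Y1 : 1 ≤ Y
  Y21 : 1 ≤ Y₂
  sN1 : 1 ≤ κ ^ 2 * sN N Y Y₂
  sK1 : 1 ≤ κ ^ 2 * sK N Y Y₂
  sM1 : N ^ (1 / 5 : ℝ) ≤ sM N Y Y₂
  sG1 : N ^ (1 / 5 : ℝ) ≤ sG N Y Y₂
  sNh : sN N Y Y₂ ≤ N
  sKh : sK N Y Y₂ ≤ N
  sMh : sM N Y Y₂ ≤ N
  sGh : sG N Y Y₂ ≤ N
  lo : 64 * Y ≤ κ ^ 8 * (sN N Y Y₂ ^ 3 * sK N Y Y₂)
  hi : N ^ (δ / 4000) * (1296 * (sN N Y Y₂ ^ 3 * sK N Y Y₂)) ≤ N ^ 2

theorem EQB1_sz (δ κ : ℝ) (hδ : 0 < δ) (hδ1 : δ ≤ 1 / 10) (hκ : 0 < κ) (hκ1 : κ ≤ 1) :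
    ∃ N₀ : ℝ, 1 ≤ N₀ ∧ ∀ N Y Y₂ : ℝ, N₀ ≤ N → Rng δ N Y Y₂ → EQB1_Sz δ κ N Y Y₂ := by
  have hκ2 : 0 < κ ^ 2 := by positivity
  obtain ⟨L, hL, HL⟩ := EQB1_large (64 / κ ^ 8 + 1296 + 19 / κ) (1 / 10) (by norm_num)
  refine ⟨max 2 L, le_trans (by norm_num) (le_max_left _ _), ?_⟩
  intro N Y Y₂ hN hR
  have hN2 : 2 ≤ N := le_trans (le_max_left _ _) hN
  have hA := HL N (le_trans (le_max_right _ _) hN)
  have hN1 : 1 < N := by linarith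
  have hN0 : 0 < N := by linarith
  have hmono : ∀ {x z : ℝ}, x ≤ z → N ^ x ≤ N ^ z := fun h =>
    Real.rpow_le_rpow_of_exponent_le hN1.le h
  have hpow1 : ∀ {x : ℝ}, x ≤ 1 → N ^ x ≤ N := fun h => by
    calc N ^ _ ≤ N ^ (1 : ℝ) := hmono h
      _ = N := Real.rpow_one N
  have q1 : 0 < 19 / κ := by positivity
  have q2 : 0 < 64 / κ ^ 8 := by positivity
  have hA1 : 64 / κ ^ 8 ≤ N ^ (1 / 10 : ℝ) := by linarith
  have hA2 : 1296 ≤ N ^ (1 / 10 : ℝ) := by linarith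
  have hA3 : 19 / κ ≤ N ^ (1 / 10 : ℝ) := by linarith
  have h64 : 64 ≤ κ ^ 8 * N ^ (1 / 10 : ℝ) := by
    rw [div_le_iff₀ (by positivity)] at hA1
    linarith
  have h1κ2 : 1 ≤ κ ^ 2 * N ^ (1 / 10 : ℝ) := by
    have h1 : κ ^ 8 ≤ κ ^ 2 := pow_le_pow_of_le_one hκ.le hκ1 (by norm_num)
    have h2 : κ ^ 8 * N ^ (1 / 10 : ℝ) ≤ κ ^ 2 * N ^ (1 / 10 : ℝ) :=
      mul_le_mul_of_nonneg_right h1 (Real.rpow_nonneg hN0.le _)
    linarith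
  obtain ⟨u, v, hYu, hYv, hu1, hu2, hv1, hv2⟩ := EQB1_exp δ N Y Y₂ hN1 hR
  obtain ⟨eN, eK, eM, eG⟩ := EQB1_sizes N u v hN0
  have e31 := EQB1_s31 N Y Y₂ u v hN0 hYu hYv
  rw [← hYu, ← hYv] at eN eK eM eG
  refine ⟨hN1, hA3.trans (hpow1 (by norm_num)), hA2.trans (hpow1 (by norm_num)), ?_, ?_, ?_, ?_,
    ?_, ?_, ?_, ?_, ?_, ?_, ?_, ?_⟩
  · rw [hYu]
    exact Real.one_le_rpow hN1.le (by linarith)
  · rw [hYv]
    exact Real.one_le_rpow hN1.le (by linarith)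
  · refine h1κ2.trans (mul_le_mul_of_nonneg_left ?_ hκ2.le)
    rw [eN]
    exact hmono (by linarith)
  · refine h1κ2.trans (mul_le_mul_of_nonneg_left ?_ hκ2.le)
    rw [eK]
    exact hmono (by linarith)
  · rw [eM]
    exact hmono (by linarith)
  · rw [eG]
    exact hmono (by linarith)
  · rw [eN]
    exact hpow1 (by linarith)
  · rw [eK]
    exact hpow1 (by linarith)
  · rw [eM]
    exact hpow1 (by linarith)
  · rw [eG]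
    exact hpow1 (by linarith)
  · rw [e31, hYu]
    have h4 : N ^ (1 / 10 : ℝ) * N ^ u ≤ N ^ (7 / 2 * u + 5 / 2 * v - 2) := by
      rw [← Real.rpow_add hN0]
      exact hmono (by linarith)
    calc 64 * N ^ u ≤ κ ^ 8 * N ^ (1 / 10 : ℝ) * N ^ u :=
          mul_le_mul_of_nonneg_right h64 (Real.rpow_nonneg hN0.le _)
      _ = κ ^ 8 * (N ^ (1 / 10 : ℝ) * N ^ u) := by ring
      _ ≤ _ := mul_le_mul_of_nonneg_left h4 (by positivity)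
  · rw [e31]
    calc N ^ (δ / 4000) * (1296 * N ^ (7 / 2 * u + 5 / 2 * v - 2))
        ≤ N ^ (1 / 10 : ℝ) * (N ^ (1 / 10 : ℝ) * N ^ (1 : ℝ)) := by
          apply mul_le_mul (hmono (by linarith)) _ (by positivity) (Real.rpow_nonneg hN0.le _)
          exact mul_le_mul hA2 (hmono (by linarith)) (Real.rpow_nonneg hN0.le _)
            (Real.rpow_nonneg hN0.le _)
      _ = N ^ ((1 / 10 : ℝ) + (1 / 10 + 1)) := by
          rw [Real.rpow_add hN0, Real.rpow_add hN0]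
      _ ≤ N ^ (2 : ℝ) := hmono (by norm_num)
      _ = N ^ 2 := by
          rw [← Real.rpow_natCast]
          norm_num

/-- the frequency range of a block -/
theorem EQB1_freq (δ κ N Y Y₂ : ℝ) (hκ : 0 < κ) (hS : EQB1_Sz δ κ N Y Y₂) (N₁ K₁ e : ℕ)
    (hN₁ : 1 ≤ N₁) (hK₁ : 1 ≤ K₁) (hBlk : Blk (κ ^ 2) 6 N Y Y₂ N₁ K₁) (he1 : 1 ≤ e)
    (he2 : (e : ℝ) ≤ N ^ (δ / 4000)) :
    ∃ V H : ℕ, V = ⌊Y⌋₊ ∧ 1 ≤ V ∧ 1 ≤ H ∧ 64 * H * V ≤ N₁ ^ 3 * K₁ * e ∧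
      1 / (H : ℝ) ≤ 128 * Y / ((N₁ : ℝ) ^ 3 * K₁ * e) ∧
      (H : ℝ) ≤ N ^ (δ / 4000) * ((N₁ : ℝ) ^ 3 * K₁ / Y) ∧ (H : ℝ) ≤ N ^ 2 := by
  have hY1 := hS.Y1
  have hY0 : 0 < Y := by linarith
  have hN0 : 0 < N := by linarith [hS.N1]
  have hsN0 : 0 < sN N Y Y₂ := by
    have h1 := hS.sN1
    by_contra h
    have h2 : κ ^ 2 * sN N Y Y₂ ≤ 0 :=
      mul_nonpos_of_nonneg_of_nonpos (by positivity) (not_lt.mp h)
    linarith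
  have hsK0 : 0 < sK N Y Y₂ := by
    have h1 := hS.sK1
    by_contra h
    have h2 : κ ^ 2 * sK N Y Y₂ ≤ 0 :=
      mul_nonpos_of_nonneg_of_nonpos (by positivity) (not_lt.mp h)
    linarith
  set V : ℕ := ⌊Y⌋₊ with hV
  have hV1 : 1 ≤ V := Nat.le_floor (by exact_mod_cast hY1)
  have hVY : (V : ℝ) ≤ Y := Nat.floor_le hY0.le
  have hVY2 : Y ≤ 2 * V := by
    have h1 := (Nat.lt_floor_add_one Y).le
    have h2 : (1 : ℝ) ≤ V := by exact_mod_cast hV1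
    rw [← hV] at h1
    linarith
  have hV0 : (0 : ℝ) < V := by exact_mod_cast hV1
  have he0 : (0 : ℝ) < e := by exact_mod_cast he1
  have he1' : (1 : ℝ) ≤ e := by exact_mod_cast he1
  have hN₁0 : (0 : ℝ) < N₁ := by exact_mod_cast hN₁
  have hK₁0 : (0 : ℝ) < K₁ := by exact_mod_cast hK₁
  set A : ℝ := (N₁ : ℝ) ^ 3 * K₁ with hAd
  have hA0 : 0 < A := by positivity
  have hAlo : 64 * Y ≤ A := by
    refine hS.lo.trans ?_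
    have h1 : (κ ^ 2 * sN N Y Y₂) ^ 3 ≤ (N₁ : ℝ) ^ 3 :=
      pow_le_pow_left₀ (by positivity) hBlk.n1 3
    have h2 : (κ ^ 2 * sN N Y Y₂) ^ 3 * (κ ^ 2 * sK N Y Y₂) ≤ A :=
      mul_le_mul h1 hBlk.k1 (by positivity) (by positivity)
    refine le_trans (le_of_eq ?_) h2
    ring
  have hAhi : A ≤ 1296 * (sN N Y Y₂ ^ 3 * sK N Y Y₂) := by
    have h1 : (N₁ : ℝ) ^ 3 ≤ (6 * sN N Y Y₂) ^ 3 := pow_le_pow_left₀ hN₁0.le hBlk.n2 3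
    have h2 : A ≤ (6 * sN N Y Y₂) ^ 3 * (6 * sK N Y Y₂) :=
      mul_le_mul h1 hBlk.k2 hK₁0.le (by positivity)
    refine h2.trans (le_of_eq ?_)
    ring
  have hV64 : 64 * V ≤ N₁ ^ 3 * K₁ * e := by
    have h7 : A * 1 ≤ A * e := mul_le_mul_of_nonneg_left he1' hA0.le
    have h1 : (64 * V : ℝ) ≤ A * e := by linarith
    rw [hAd] at h1
    exact_mod_cast h1
  refine ⟨V, N₁ ^ 3 * K₁ * e / (64 * V), rfl, hV1, ?_⟩
  set H : ℕ := N₁ ^ 3 * K₁ * e / (64 * V) with hH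
  have hH1 : 1 ≤ H := (Nat.one_le_div_iff (by omega)).mpr hV64
  have hH0 : (0 : ℝ) < H := by exact_mod_cast hH1
  have hHV : 64 * H * V ≤ N₁ ^ 3 * K₁ * e := by
    have h1 : 64 * V * H ≤ N₁ ^ 3 * K₁ * e := Nat.mul_div_le _ _
    calc 64 * H * V = 64 * V * H := by ring
      _ ≤ _ := h1
  have hHV' : 64 * (H : ℝ) * V ≤ A * e := by
    rw [hAd]
    exact_mod_cast hHV
  have hHlo : A * e ≤ 128 * Y * H := by
    have h1 : N₁ ^ 3 * K₁ * e < 64 * V * (H + 1) :=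
      Nat.lt_mul_div_succ (N₁ ^ 3 * K₁ * e) (b := 64 * V) (by omega)
    have h2 : (A * e : ℝ) ≤ 64 * V * (H + 1) := by
      rw [hAd]
      exact_mod_cast h1.le
    have h3 : (1 : ℝ) ≤ H := by exact_mod_cast hH1
    have h4 : 64 * (V : ℝ) * (H + 1) ≤ 64 * V * (2 * H) :=
      mul_le_mul_of_nonneg_left (by linarith) (by positivity)
    have h5 : 64 * (V : ℝ) * (2 * H) ≤ 64 * Y * (2 * H) := by gcongr
    linarith
  have hHhi : (H : ℝ) ≤ N ^ (δ / 4000) * (A / Y) := by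
    have h1 : Y * H ≤ A * e := by
      have h2 : Y * H ≤ (2 * V) * H := mul_le_mul_of_nonneg_right hVY2 hH0.le
      have h3 : 0 < (V : ℝ) * H := by positivity
      linarith
    have h2 : A * (e : ℝ) ≤ A * N ^ (δ / 4000) := mul_le_mul_of_nonneg_left he2 hA0.le
    rw [← mul_div_assoc, le_div_iff₀ hY0]
    linarith
  refine ⟨hH1, hHV, ?_, hHhi, ?_⟩
  · rw [div_le_div_iff₀ hH0 (by positivity)]
    linarith
  · refine hHhi.trans (le_trans ?_ hS.hi)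
    apply mul_le_mul_of_nonneg_left _ (Real.rpow_nonneg hN0.le _)
    exact (div_le_self hA0.le hY1).trans hAhi

end Pool.Agent.T5
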