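import Pool.Agent.helper65.T5.EQBgen

set_option autoImplicit false

/-!
# T5 (MP_16912e_nt), rows EQB1 and EQB2: the bound for one block and one class (assembly)
-/

namespace Pool.Agent.T5

open Finset NumberField Pool.Agent.helper3.FT Pool.Agent.helper47.RA

/-- the hypotheses on the tuples of one block and one class -/
structure EQB1_Cl (κ N Y Y₂ : ℝ) (W : Finset (ℕ × ℕ)) (P e : ℕ) (ρ : ℕ × ℕ → ℤ × ℤ × ℤ)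
    (r₁ r₂ c₀ : ℕ × ℕ → ℤ) (t : Tpl) : Prop where
  cen : Cen κ N Y Y₂ t
  mem : t.1 ∈ W
  m : (P : ℤ) ∣ t.2.1 - r₁ t.1
  g : (P : ℤ) ∣ t.2.2.1 - r₂ t.1
  z : ((t.1.1 ^ 3 * t.1.2 * e : ℕ) : ℤ) ∣ t.2.2.2 - ((ρ t.1).1 * t.2.1 ^ 2 +
    (ρ t.1).2.1 * t.2.1 * t.2.2.1 + (ρ t.1).2.2 * t.2.2.1 ^ 2 + c₀ t.1)

/-- **the bound for one block and one class** -/
theorem EQB1_gen (δ κ : ℝ) (hδ : 0 < δ) (hδ1 : δ ≤ 1 / 10) (hκ : 0 < κ) (hκ1 : κ ≤ 1)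
    (hBLU : BLU_stmt) (hNUMC : NUMC_stmt) (hCZ : CZ_stmt) :
    ∃ C N₀ : ℝ, 1 ≤ C ∧ 1 ≤ N₀ ∧ ∀ N Y Y₂ : ℝ, N₀ ≤ N → Rng δ N Y Y₂ →
      EQB1_Sz δ κ N Y Y₂ ∧
      ∀ N₁ K₁ e y P : ℕ, 1 ≤ N₁ → 1 ≤ K₁ → Blk (κ ^ 2) 6 N Y Y₂ N₁ K₁ → 1 ≤ e →
      (e : ℝ) ≤ N ^ (δ / 4000) → 1 ≤ y → (y : ℝ) ≤ N → Squarefree y → 1 ≤ P →
      (P : ℝ) ≤ N ^ (1 / 5 : ℝ) →
      ∀ (W : Finset (ℕ × ℕ)) (r s : ℕ × ℕ → ℕ) (ρ : ℕ × ℕ → ℤ × ℤ × ℤ) (r₁ r₂ c₀ : ℕ × ℕ → ℤ),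
      W ⊆ pairs N₁ K₁ y → Resid W 1 1 e r s ρ → ∀ F : Finset Tpl,
      (∀ t ∈ F, EQB1_Cl κ N Y Y₂ W P e ρ r₁ r₂ c₀ t) →
      (F.card : ℝ) ≤ C * (Y * Y₂) * ((W.card : ℝ) / ((N₁ : ℝ) * K₁ * (e * (P : ℝ) ^ 2)) +
        N ^ (δ / 100) * relE δ N Y Y₂ y / (e * y)) := by
  obtain ⟨CB, hCB, HB⟩ := hBLU (δ / 400) (by positivity)
  have hC₀ : 1 ≤ 19 / κ := by
    rw [le_div_iff₀ hκ]
    linarith
  have hκ2 : 0 < κ ^ 2 := by positivity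
  have hκ2' : κ ^ 2 ≤ 1 := pow_le_one₀ hκ.le hκ1
  obtain ⟨NN, HN⟩ := hNUMC δ (κ ^ 2) (19 / κ) hδ hδ1 hκ2 hC₀
  obtain ⟨L, hL, HL⟩ := EQB1_sz δ κ hδ hδ1 hκ hκ1
  refine ⟨1024 * (285 / κ ^ 5) + 256 * CB, max NN L, ?_, hL.trans (le_max_right _ _), ?_⟩
  · have h1 : 0 < 1024 * (285 / κ ^ 5) := by positivity
    linarith
  intro N Y Y₂ hN hR
  have hNN : NN ≤ N := le_trans (le_max_left _ _) hN
  have hS : EQB1_Sz δ κ N Y Y₂ := HL N Y Y₂ (le_trans (le_max_right _ _) hN) hR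
  refine ⟨hS, ?_⟩
  intro N₁ K₁ e y P hN₁ hK₁ hBlk he1 he2 hy1 hy2 hysq hP1 hP2 W r s ρ r₁ r₂ c₀ hW hRes F hF
  have hN1 := hS.N1
  have hN0 : 0 < N := by linarith
  have hY1 := hS.Y1
  have hY0 : 0 < Y := by linarith
  have hY20 : 0 < Y₂ := by linarith [hS.Y21]
  have hN15 : 1 ≤ N ^ (1 / 5 : ℝ) := Real.one_le_rpow hN1.le (by norm_num)
  have hsM1 : 1 ≤ sM N Y Y₂ := hN15.trans hS.sM1
  have hsG1 : 1 ≤ sG N Y Y₂ := hN15.trans hS.sG1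
  have hsN0 : 0 ≤ sN N Y Y₂ := by
    unfold sN
    positivity
  have hsK0 : 0 ≤ sK N Y Y₂ := by
    unfold sK
    positivity
  obtain ⟨V, H, hV, hV1, hH1, hHV, hHinv, hHhi, hHN⟩ :=
    EQB1_freq δ κ N Y Y₂ hκ hS N₁ K₁ e hN₁ hK₁ hBlk he1 he2
  -- the box
  obtain ⟨Mr, hMr⟩ : ∃ Mr : ℕ, Mr = ⌈6 / κ * sM N Y Y₂⌉₊ := ⟨_, rfl⟩
  obtain ⟨Gr, hGr⟩ : ∃ Gr : ℕ, Gr = ⌈8 * sG N Y Y₂⌉₊ := ⟨_, rfl⟩
  obtain ⟨hM1, hM2⟩ := EQB1_ceil (6 / κ) (sM N Y Y₂) (by positivity) hsM1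
  obtain ⟨hG1, hG2⟩ := EQB1_ceil 8 (sG N Y Y₂) (by norm_num) hsG1
  rw [← hMr] at hM1 hM2
  rw [← hGr] at hG1 hG2
  obtain ⟨M, hM⟩ : ∃ M : ℕ, M = 2 * Mr + 1 := ⟨_, rfl⟩
  obtain ⟨G, hG⟩ : ∃ G : ℕ, G = 2 * Gr + 1 := ⟨_, rfl⟩
  rw [← hM] at hM1 hM2
  rw [← hG] at hG1 hG2
  have h6κ : 1 ≤ 6 / κ := by
    rw [le_div_iff₀ hκ]
    linarith
  have hMlo : sM N Y Y₂ ≤ M := by
    have h1 : 1 * sM N Y Y₂ ≤ 6 / κ * sM N Y Y₂ :=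
      mul_le_mul_of_nonneg_right h6κ (by linarith)
    linarith
  have hGlo : sG N Y Y₂ ≤ G := by linarith
  have hMhi : (M : ℝ) ≤ 15 / κ * sM N Y Y₂ := by
    refine hM2.trans ?_
    apply mul_le_mul_of_nonneg_right _ (by linarith)
    have h1 : 3 ≤ 3 / κ := by
      rw [le_div_iff₀ hκ]
      linarith
    have h2 : 15 / κ = 2 * (6 / κ) + 3 / κ := by ring
    linarith
  have hGhi : (G : ℝ) ≤ 19 * sG N Y Y₂ := by linarith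
  have hP0 : (0 : ℝ) < P := by exact_mod_cast hP1
  have hy0 : (0 : ℝ) < y := by exact_mod_cast hy1
  have he0 : (0 : ℝ) < e := by exact_mod_cast he1
  have hN₁0 : (0 : ℝ) < N₁ := by exact_mod_cast hN₁
  have hK₁0 : (0 : ℝ) < K₁ := by exact_mod_cast hK₁
  have hH0 : (0 : ℝ) < H := by exact_mod_cast hH1
  have hPM : (P : ℝ) ≤ M := (hP2.trans hS.sM1).trans hMlo
  have hPG : (P : ℝ) ≤ G := (hP2.trans hS.sG1).trans hGlo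
  have hM0 : (0 : ℝ) < M := lt_of_lt_of_le hP0 hPM
  have hG0 : (0 : ℝ) < G := lt_of_lt_of_le hP0 hPG
  -- the parameter T
  obtain ⟨T, hT⟩ : ∃ T : ℕ, T = ⌈N ^ 2⌉₊ := ⟨_, rfl⟩
  have hTN : N ^ 2 ≤ T := by
    rw [hT]
    exact Nat.le_ceil _
  have hNT : ∀ n : ℕ, (n : ℝ) ≤ N ^ 2 → n ≤ T := fun n hn => by
    have : (n : ℝ) ≤ T := hn.trans hTN
    exact_mod_cast this
  have hNN2 : N ≤ N ^ 2 := by nlinarith
  have hNmul : ∀ c x : ℝ, 0 ≤ c → c ≤ N → 0 ≤ x → x ≤ N → c * x ≤ N ^ 2 := by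
    intro c x hc0 hc hx0 hx
    rw [pow_two]
    exact mul_le_mul hc hx hx0 hN0.le
  have hcN := hS.cN
  have hN₁T : N₁ ≤ T := hNT _ (hBlk.n2.trans (hNmul 6 _ (by norm_num) (by linarith) hsN0 hS.sNh))
  have hK₁T : K₁ ≤ T := hNT _ (hBlk.k2.trans (hNmul 6 _ (by norm_num) (by linarith) hsK0 hS.sKh))
  have h15 : 15 / κ ≤ N := by
    refine le_trans ?_ hS.kN
    gcongr
    norm_num
  have hMT : M ≤ T :=
    hNT _ (hMhi.trans (hNmul _ _ (by positivity) h15 (by linarith) hS.sMh))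
  have hGT : G ≤ T :=
    hNT _ (hGhi.trans (hNmul _ _ (by norm_num) (by linarith) (by linarith) hS.sGh))
  have hHT : H ≤ T := hNT _ hHN
  have heT : 1 * 1 * e ≤ T := by
    rw [one_mul, one_mul]
    apply hNT
    have h1 : N ^ (δ / 4000) ≤ N ^ (1 : ℝ) :=
      Real.rpow_le_rpow_of_exponent_le hN1.le (by linarith)
    rw [Real.rpow_one] at h1
    exact (he2.trans h1).trans hNN2
  have hyT : y ≤ T := hNT _ (hy2.trans hNN2)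
  -- NUMC
  have h619 : 6 ≤ 19 / κ := by
    rw [le_div_iff₀ hκ]
    linarith
  have hBlk' : Blk (κ ^ 2) (19 / κ) N Y Y₂ N₁ K₁ :=
    ⟨hBlk.n1, hBlk.n2.trans (mul_le_mul_of_nonneg_right h619 hsN0), hBlk.k1,
      hBlk.k2.trans (mul_le_mul_of_nonneg_right h619 hsK0)⟩
  have c1 : κ ^ 2 * sM N Y Y₂ ≤ M :=
    (mul_le_of_le_one_left (by linarith) hκ2').trans hMlo
  have c2 : (M : ℝ) ≤ 19 / κ * sM N Y Y₂ := by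
    refine hMhi.trans ?_
    apply mul_le_mul_of_nonneg_right _ (by linarith)
    gcongr
    norm_num
  have c3 : κ ^ 2 * sG N Y Y₂ ≤ G :=
    (mul_le_of_le_one_left (by linarith) hκ2').trans hGlo
  have c4 : (G : ℝ) ≤ 19 / κ * sG N Y Y₂ := by
    refine hGhi.trans ?_
    apply mul_le_mul_of_nonneg_right _ (by linarith)
    rw [le_div_iff₀ hκ]
    linarith
  obtain ⟨a, hSides, haN, hnB⟩ := HN N Y Y₂ hNN hR N₁ K₁ M G H e y hBlk' c1 c2 c3 c4 he1 he2 hy1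
    hy2 hH1 hHhi
  -- BLU
  have hB := HB T N₁ K₁ M G V P e 1 1 y H a W r s ρ (fun _ => -(Mr : ℤ)) (fun _ => -(Gr : ℤ))
    (fun _ => 1) r₁ r₂ c₀ hN₁ hN₁T hK₁ hK₁T (by omega) hMT (by omega) hGT hH1 hHT hV1 hP1 he1
    le_rfl le_rfl heT hy1 hyT (fun i => hNT _ ((haN i).trans hNN2)) hysq hSides hW hRes hHV
  have hcount := EQB1_count W P e V Mr Gr ρ r₁ r₂ c₀ F (by
    intro t ht
    obtain ⟨hCen, htW, hd1, hd2, hd3⟩ := hF t ht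
    obtain ⟨-, -, -, -, hm, hg, -, -, -⟩ := hCZ κ N Y Y₂ t hκ hκ1 hN1.le hY1 hS.Y21 hCen
    refine ⟨htW, ?_, ?_, ?_, ?_, hd1, hd2, hd3⟩
    · have h1 : |(t.2.1 : ℝ)| ≤ (Mr : ℝ) := by
        rw [hMr]
        exact hm.trans (Nat.le_ceil _)
      exact_mod_cast h1
    · have h1 : |(t.2.2.1 : ℝ)| ≤ (Gr : ℝ) := by
        rw [hGr]
        exact hg.trans (Nat.le_ceil _)
      exact_mod_cast h1
    · have h1 : (0 : ℝ) < t.2.2.2 := lt_trans (by positivity) hCen.z1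
      have h2 : 0 < t.2.2.2 := by exact_mod_cast h1
      omega
    · have h1 : (t.2.2.2 : ℝ) ≤ Y := hCen.z2
      have h2 : (0 : ℝ) < t.2.2.2 := lt_trans (by positivity) hCen.z1
      have h3 : 0 < t.2.2.2 := by exact_mod_cast h2
      obtain ⟨z, hz⟩ : ∃ z : ℕ, t.2.2.2 = z := ⟨t.2.2.2.toNat, (Int.toNat_of_nonneg h3.le).symm⟩
      rw [hz] at h1 ⊢
      have h4 : z ≤ V := by
        rw [hV]
        apply Nat.le_floor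
        exact_mod_cast h1
      exact_mod_cast h4)
  rw [← hM, ← hG] at hcount
  refine hcount.trans (hB.trans ?_)
  -- main term
  obtain ⟨u, v, hYu, hYv, hu1, hu2, hv1, hv2⟩ := EQB1_exp δ N Y Y₂ hN1 hR
  have hMG := EQB1_MG κ N Y Y₂ u v M G N₁ hκ hN0 hYu hYv hM0 hG0 hMhi hGhi hBlk.n1 hsN0
    (by linarith) hY20.le
  have hmain := EQB1_main (285 / κ ^ 5) Y Y₂ M G P H e (W.card : ℝ) N₁ K₁ hY0 hP0 he0 hN₁0 hK₁0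
    hH0 (Nat.cast_nonneg _) hHinv hPM hPG hMG
  -- error term
  have hTe := EQB1_T N δ hN1 hδ hδ1
  rw [← hT] at hTe
  have hrel0 : 0 ≤ relE δ N Y Y₂ y := EQB1_relE0 δ N Y Y₂ y hN0 hY0.le hY20.le
  have herr := EQB1_err CB ((T : ℝ) ^ (δ / 400)) (N ^ (δ / 100)) (relE δ N Y Y₂ y)
    (nB N₁ K₁ H y 1 1 e a) M G H ((N₁ : ℝ) ^ 3 * K₁) e y Y Y₂ (by linarith) hTe hH0
    (by positivity) he0 hy0 hY0 hY20 hrel0 (Real.rpow_nonneg (Nat.cast_nonneg _) _) hHinv hnB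
  have hw0 : 0 ≤ (W.card : ℝ) / ((N₁ : ℝ) * K₁ * (e * (P : ℝ) ^ 2)) := by positivity
  have hz0 : 0 ≤ N ^ (δ / 100) * relE δ N Y Y₂ y / (e * y) := by positivity
  have hc1 : 0 ≤ 1024 * (285 / κ ^ 5) * (Y * Y₂) := by positivity
  have hc2 : 0 ≤ 256 * CB * (Y * Y₂) := by positivity
  have h1 := mul_nonneg hc1 hz0
  have h2 := mul_nonneg hc2 hw0
  have hfin : (1024 * (285 / κ ^ 5) + 256 * CB) * (Y * Y₂) *
      ((W.card : ℝ) / ((N₁ : ℝ) * K₁ * (e * (P : ℝ) ^ 2)) +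
        N ^ (δ / 100) * relE δ N Y Y₂ y / (e * y)) =
      1024 * (285 / κ ^ 5) * (Y * Y₂) * ((W.card : ℝ) / ((N₁ : ℝ) * K₁ * (e * (P : ℝ) ^ 2))) +
      256 * CB * (Y * Y₂) * (N ^ (δ / 100) * relE δ N Y Y₂ y / (e * y)) +
      (1024 * (285 / κ ^ 5) * (Y * Y₂) * (N ^ (δ / 100) * relE δ N Y Y₂ y / (e * y)) +
      256 * CB * (Y * Y₂) * ((W.card : ℝ) / ((N₁ : ℝ) * K₁ * (e * (P : ℝ) ^ 2)))) := by ring
  rw [hfin]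
  linarith

end Pool.Agent.T5
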