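import Pool.Agent.helper94.T5.SpecP

set_option autoImplicit false

/-!
# T5 (MP_16912e_nt), row P2: the local average at the prime `2`
-/

namespace Pool.Agent.T5P

open Finset

/-- the class is divisible by `2` -/
def P2d (x : ZMod (2 ^ 2)) : Bool := decide (((2 : ℕ) : ZMod (2 ^ 2)) * x = 0)

/-- the discriminant is not fundamental at `2` -/
def P2n (z l s : ZMod (2 ^ 2)) : Bool :=
  (decide (s = 0) && (decide (z ^ 2 * l = 0) || decide (z ^ 2 * l = 3))) ||
    (decide (s = 2) && (decide (z ^ 2 * l = 0) || decide (z ^ 2 * l = 1)))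

/-- the weight of a class as a natural number -/
def P2w (n k m g R : ZMod (2 ^ 2)) : ℕ :=
  bif P2d n then (bif !P2d k && !P2d g && P2d m && !decide (m = 0) then 2 else 0)
  else bif (P2d (zz 2 k m R) && P2d (ll 2 n k m g R)) ||
      P2n (zz 2 k m R) (ll 2 n k m g R) (ss 2 n k m g R) then 0
  else bif P2d (zz 2 k m R) then 4 else 2

theorem P2_dv (x : ZMod (2 ^ 2)) : P2d x = true ↔ dv 2 x := by
  unfold P2d dv
  exact decide_eq_true_iff

theorem P2_nf (z l s : ZMod (2 ^ 2)) : P2n z l s = true ↔ nf 2 z l s := by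
  unfold P2n nf
  simp only [Bool.or_eq_true, Bool.and_eq_true, decide_eq_true_iff, if_true]

theorem P2_eq (n k m g R : ZMod (2 ^ 2)) : Fp 2 n k m g R = (P2w n k m g R : ℝ) := by
  classical
  unfold Fp P2w bad
  simp only [← P2_dv, ← P2_nf]
  cases P2d n with
  | true =>
    have h0 : (decide (m = 0) = true) ↔ m = 0 := decide_eq_true_iff
    cases P2d k <;> cases P2d g <;> cases P2d m <;> by_cases hm : m = 0 <;>
      simp [hm] <;> norm_num
  | false =>
    cases P2d (zz 2 k m R) <;> cases P2d (ll 2 n k m g R) <;>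
      cases P2n (zz 2 k m R) (ll 2 n k m g R) (ss 2 n k m g R) <;> simp <;> norm_num

theorem P2_count : ∑ n : ZMod (2 ^ 2), ∑ k : ZMod (2 ^ 2), ∑ m : ZMod (2 ^ 2),
    ∑ g : ZMod (2 ^ 2), ∑ R : ZMod (2 ^ 2), P2w n k m g R = 576 := by
  decide +kernel

theorem P2 : P2_stmt := by
  unfold P2_stmt
  simp only [P2_eq]
  exact_mod_cast P2_count

end Pool.Agent.T5P
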