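import Pool.Agent.helper8.T5.SpecU

set_option autoImplicit false

/-!
# T5 (MP_16912e_nt), row UFE: the interface for the exceptional ideals
-/

namespace Pool.Agent.T5

open Finset NumberField Pool.Agent.helper3.FT Pool.Agent.helper47.RA

theorem UFE (hUE : UE_stmt) : UFE_stmt := by
  classical
  intro δ hδ0 hδ1
  obtain ⟨c, N₀, hc, hN₀, H⟩ := hUE δ hδ0 hδ1
  refine ⟨c, N₀, hc, ?_⟩
  intro N Y hN hY1 hY2
  have hN1 : 1 ≤ N := le_trans hN₀ hN
  have hY1' : N ^ (0.38 : ℝ) ≤ Y :=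
    le_trans (Real.rpow_le_rpow_of_exponent_le hN1 (by norm_num)) hY1
  set s : Finset ℤ := (DN N).filter (fun D => Nonempty (Fld D)) with hs
  have hne : ∀ D : s, Nonempty (Fld D.1) := fun D => (Finset.mem_filter.mp D.2).2
  let Φ : ∀ D : s, Fld D.1 := fun D => (hne D).some
  have hrange : ∀ D ∈ s, N / 2 < -(D : ℝ) ∧ -(D : ℝ) ≤ N := by
    intro D hD
    have h1 : D ∈ DN N := (Finset.mem_filter.mp hD).1
    unfold DN at h1
    rw [Finset.mem_filter, Finset.mem_Icc] at h1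
    obtain ⟨⟨h2, h3⟩, h4, h5⟩ := h1
    refine ⟨h5, ?_⟩
    have h6 : -D ≤ ⌊N⌋ := by omega
    have h7 : ((-D : ℤ) : ℝ) ≤ (⌊N⌋ : ℝ) := by exact_mod_cast h6
    have h8 := Int.floor_le N
    push_cast at h7
    linarith
  have key := H N Y hN hY1' hY2 s Φ hrange
  have e1 : ∑ D ∈ DN N, (cE D Y (N ^ (1 / 2 - δ / 200)) : ℝ) =
      ∑ D ∈ s, (cE D Y (N ^ (1 / 2 - δ / 200)) : ℝ) := by
    rw [hs, Finset.sum_filter]
    apply Finset.sum_congr rfl
    intro D _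
    by_cases h : Nonempty (Fld D)
    · rw [if_pos h]
    · rw [if_neg h]
      unfold cE
      rw [dif_neg h, Nat.cast_zero]
  have e2 : ∑ D ∈ s, (cE D Y (N ^ (1 / 2 - δ / 200)) : ℝ) =
      ∑ D : s, ((EX (Φ D).Q Y (N ^ (1 / 2 - δ / 200))).ncard : ℝ) := by
    rw [← Finset.sum_coe_sort s]
    apply Finset.sum_congr rfl
    intro D _
    have h : cE D.1 Y (N ^ (1 / 2 - δ / 200)) =
        (EX (hne D).some.Q Y (N ^ (1 / 2 - δ / 200))).ncard := by
      unfold cE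
      rw [dif_pos (hne D)]
    rw [h]
  rw [e1, e2]
  exact key

end Pool.Agent.T5
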